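import Pool.Agent.H25.DL.Targets

/-!
# Dilated zeros: module CO (the core)
-/

set_option autoImplicit false

open Complex MeasureTheory Set Filter Topology

namespace Pool.Agent.H25.DL

variable {ι : Type} [Fintype ι]

lemma continuous_wl (r τ : ℝ) : Continuous (wl r τ) := by
  unfold wl
  fun_prop

lemma continuous_B (f : Fac) (j : ℕ) : Continuous (f.B j) := by
  unfold Fac.B
  refine continuous_finsetSum _ fun n hn => ?_
  have hn0 : (n : ℂ) ≠ 0 := by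
    have : 1 ≤ n := (Nat.one_le_two_pow).trans (Finset.mem_Ico.1 hn).1
    exact_mod_cast (by omega : n ≠ 0)
  refine continuous_const.mul ?_
  exact (continuous_wl _ _).neg.const_cpow (Or.inl hn0)

lemma continuous_Pj (f : ι → Fac) (j : ι → ℕ) : Continuous (Pj f j) := by
  unfold Pj
  exact continuous_finsetProd _ fun l _ => continuous_B _ _

lemma continuous_gs (β : ℝ) : Continuous (gs β) := by
  unfold gs
  fun_prop

lemma continuousOn_KJ (f : ι → Fac) {Y : ℂ → ℂ} {d t₀ : ℝ} (hP : Phase Y d t₀) (β R : ℝ)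
    (hR : 0 ≤ R) (j : ι → ℕ) : ContinuousOn (KJ f Y β R j) (Ici (t₀ + R)) := by
  have hY : Continuous fun v : ℝ => Y (1 / 2 + (max v t₀ : ℝ) * I) := by
    rw [continuous_iff_continuousAt]
    intro v
    have h1 : ContinuousAt Y (1 / 2 + (max v t₀ : ℝ) * I) := by
      refine (hP.diff _ ?_).continuousAt
      simp
    have h2 : Continuous fun v : ℝ => (1 / 2 + ((max v t₀ : ℝ) : ℂ) * I) := by fun_prop
    exact ContinuousAt.comp (f := fun v : ℝ => (1 / 2 + ((max v t₀ : ℝ) : ℂ) * I)) (g := Y) h1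
      h2.continuousAt
  have hc : Continuous (Function.uncurry fun u y : ℝ =>
      Pj f j (1 / 2 + (u + y : ℝ) * I) * Y (1 / 2 + (max (u + y) t₀ : ℝ) * I) * gs β (y * I)) := by
    unfold Function.uncurry
    refine (Continuous.mul ?_ ?_).mul ?_
    · exact (continuous_Pj f j).comp (by fun_prop)
    · exact hY.comp (f := fun p : ℝ × ℝ => p.1 + p.2) (by fun_prop)
    · exact (continuous_gs β).comp (by fun_prop)
  have h3 := intervalIntegral.continuous_parametric_intervalIntegral_of_continuous' (μ := volume) hc (-R) R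
  refine h3.continuousOn.congr fun u hu => ?_
  unfold KJ
  refine intervalIntegral.integral_congr fun y hy => ?_
  rw [uIcc_of_le (by linarith)] at hy
  have : max (u + y) t₀ = u + y := by
    apply max_eq_left
    have := hy.1
    have := mem_Ici.1 hu
    linarith
  simp only [this]

lemma tendsto_aux (a b c : ℝ) (hc : c < 1) :
    ∃ T₀ : ℝ, ∀ T : ℝ, T₀ ≤ T → a * Real.log T ^ b * T ^ c ≤ T / 16 := by
  have h1 : (fun T : ℝ => Real.log T ^ b) =o[atTop] fun T : ℝ => T ^ (1 - c) :=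
    isLittleO_log_rpow_rpow_atTop b (by linarith)
  have h2 := h1.const_mul_left a
  have h3 := h2.bound (show (0 : ℝ) < 1 / 16 by norm_num)
  obtain ⟨T₀, hT₀⟩ := eventually_atTop.1 (h3.and (eventually_gt_atTop (0 : ℝ)))
  refine ⟨T₀, fun T hT => ?_⟩
  obtain ⟨h4, h5⟩ := hT₀ T hT
  rw [Real.norm_eq_abs, Real.norm_eq_abs, abs_of_nonneg (Real.rpow_nonneg h5.le _)] at h4
  calc a * Real.log T ^ b * T ^ c ≤ |a * Real.log T ^ b| * T ^ c := by
        gcongr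
        exact le_abs_self _
    _ ≤ (1 / 16 * T ^ (1 - c)) * T ^ c := by gcongr
    _ = T / 16 := by
        rw [mul_assoc, ← Real.rpow_add h5]
        simp
        ring

/-- (CO) -/
theorem co (hFU : T_FU) (hBA : T_BA) (hLE : T_LE) (hEX : T_EX) (hSH : T_SH) (hCN : T_CN) :
    T_CO := by
  intro ι _ f Y d t₀ μ hd hdμ hμ hP
  obtain ⟨D, hD⟩ : ∃ D : ℝ, D = (d + μ) / 2 := ⟨_, rfl⟩
  have hdD : d < D := by linarith
  have hDμ : D < μ := by linarith
  have hD0 : 0 < D := by linarith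
  have hμ0 : 0 < μ := by linarith
  obtain ⟨β₁, hβ₁, hLE⟩ := hLE ι f
  obtain ⟨β₂, hβ₂, hEX⟩ := hEX ι f Y d t₀ μ D hd hdD hμ0 hμ hP
  refine ⟨max β₁ β₂, lt_max_of_lt_left hβ₁, fun β hβ C => ?_⟩
  have hβ0 : 0 < β := hβ₁.trans_le ((le_max_left _ _).trans hβ)
  obtain ⟨R₀, hLE⟩ := hLE β ((le_max_left _ _).trans hβ)
  obtain ⟨T₃, hEX⟩ := hEX β ((le_max_right _ _).trans hβ)
  obtain ⟨T₄, hSH⟩ := hSH ι f Y β C hβ0
  obtain ⟨C₁, T₁, hC₁, hFU⟩ := hFU ι f Y d t₀ β hd hβ0 hP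
  obtain ⟨δ, C₂, T₂, hδ, hδ1, hC₂, hBA⟩ := hBA ι f Y d t₀ β μ D hβ0 hP hD0 hDμ hμ
  obtain ⟨C₃, hC₃, hCN⟩ := hCN ι f μ D hD0 hμ0 hμ
  have hexp : 1 / 2 + D / (2 * μ) < 1 := by
    have : D / (2 * μ) < 1 / 2 := by
      rw [div_lt_div_iff₀ (by positivity) (by norm_num)]
      linarith
    linarith
  obtain ⟨T₅, hT₅⟩ := tendsto_aux (C₃ * C₁) C₃ (1 / 2 + D / (2 * μ)) hexp
  obtain ⟨A, hA⟩ : ∃ A : ℝ, A = (C₂ + C₃ + 1) / δ := ⟨_, rfl⟩
  have hA0 : 0 < A := by rw [hA]; positivity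
  have hAδ : A * δ = C₂ + C₃ + 1 := by rw [hA]; field_simp
  -- large T
  have hlog := Real.tendsto_log_atTop
  have hlogT : ∀ K : ℝ, ∀ᶠ T : ℝ in atTop, K ≤ Real.log T := fun K => hlog.eventually_ge_atTop K
  have hTlog : ∀ᶠ T : ℝ in atTop, t₀ + Real.log T ≤ T := by
    have h1 : (fun T : ℝ => t₀ + Real.log T) =o[atTop] fun T : ℝ => T := by
      refine Asymptotics.IsLittleO.add ?_ Real.isLittleO_log_id_atTop
      exact Asymptotics.isLittleO_const_left.2 (Or.inr (tendsto_norm_atTop_atTop))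
    have h2 := h1.bound zero_lt_one
    filter_upwards [h2, eventually_ge_atTop (0 : ℝ)] with T hT hT0
    rw [one_mul, Real.norm_eq_abs, Real.norm_eq_abs, abs_of_nonneg hT0] at hT
    exact (le_abs_self _).trans hT
  have hpow : ∀ᶠ T : ℝ in atTop, 2 ≤ Real.log T ^ A := by
    have h1 : Tendsto (fun T : ℝ => Real.log T ^ A) atTop atTop :=
      (tendsto_rpow_atTop hA0).comp hlog
    exact h1.eventually_ge_atTop 2
  obtain ⟨T₆, hT₆⟩ := eventually_atTop.1 ((hlogT R₀).and ((hlogT (16 * C₂ * C₃)).and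
    ((hlogT 1).and (hTlog.and (hpow.and ((eventually_ge_atTop T₁).and ((eventually_ge_atTop T₂).and
      ((eventually_ge_atTop T₃).and ((eventually_ge_atTop T₄).and ((eventually_ge_atTop T₅).and
        (eventually_ge_atTop 3)))))))))))
  refine ⟨A, T₆, hA0, fun T hT G hGm hG hclean => ?_⟩
  obtain ⟨hR₀, hl16, hl1, hTl, hpow2, hT1, hT2, hT3, hT4, hT5, hT33⟩ := hT₆ T hT
  have hT0 : 0 < T := by linarith
  obtain ⟨ℓ, hℓ⟩ : ∃ ℓ : ℝ, ℓ = Real.log T := ⟨_, rfl⟩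
  rw [← hℓ] at hR₀ hl16 hl1 hTl hpow2
  have hℓ0 : 0 < ℓ := by linarith
  obtain ⟨S, hS⟩ : ∃ S : ℝ → ℂ, S = fun u => ∑ j ∈ mains f μ D T, KJ f Y β ℓ j u := ⟨_, rfl⟩
  -- the real part on G
  have hre : ∀ u ∈ G, 1 / 4 ≤ (S u).re := by
    intro u hu
    have h1 := hLE ℓ hR₀ u
    have h2 := hEX T hT3 u (hG hu)
    have h3 := hSH T hT4 u (hG hu) (hclean u hu)
    rw [← hℓ] at h2 h3
    have h4 : ‖S u - 1‖ ≤ 3 / 4 := by
      have e : S u - 1 = -(KK f Y β ℓ u - ∑ j ∈ mains f μ D T, KJ f Y β ℓ j u) +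
          (KK f Y β ℓ u - LL f β ℓ u) + (LL f β ℓ u - 1) := by rw [hS]; ring
      rw [e]
      refine (norm_add_le _ _).trans ?_
      have h5 := norm_add_le (-(KK f Y β ℓ u - ∑ j ∈ mains f μ D T, KJ f Y β ℓ j u))
        (KK f Y β ℓ u - LL f β ℓ u)
      rw [norm_neg] at h5
      linarith
    have h5 := (abs_re_le_norm (S u - 1)).trans h4
    rw [sub_re, one_re, abs_le] at h5
    linarith [h5.1]
  -- continuity
  have hcont : ∀ j : ι → ℕ, ContinuousOn (KJ f Y β ℓ j) (Icc T (2 * T)) := fun j =>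
    (continuousOn_KJ f hP β ℓ hℓ0.le j).mono fun u hu => mem_Ici.2 (hTl.trans hu.1)
  have hint : ∀ j : ι → ℕ, IntegrableOn (KJ f Y β ℓ j) (Icc T (2 * T)) := fun j =>
    (hcont j).integrableOn_Icc
  have hSint : IntegrableOn S (Icc T (2 * T)) := by
    rw [hS]
    exact integrable_finsetSum _ fun j _ => hint j
  obtain ⟨E, hE⟩ : ∃ E : Set ℝ, E = Icc T (2 * T) \ G := ⟨_, rfl⟩
  have hEm : MeasurableSet E := by rw [hE]; exact measurableSet_Icc.diff hGm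
  have hEs : E ⊆ Icc T (2 * T) := by rw [hE]; exact sdiff_subset
  obtain ⟨m, hm⟩ : ∃ m : ℝ, m = volume.real E := ⟨_, rfl⟩
  rw [← hE, ← hm, ← hℓ]
  have hm0 : 0 ≤ m := by rw [hm]; exact measureReal_nonneg
  have hfin : volume (Icc T (2 * T)) ≠ ⊤ := by rw [Real.volume_Icc]; exact ENNReal.ofReal_ne_top
  have hvol : volume.real G = T - m := by
    have h1 : volume.real (Icc T (2 * T) \ G) = volume.real (Icc T (2 * T)) - volume.real G :=
      measureReal_sdiff hG hGm hfin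
    rw [← hE, ← hm, Real.volume_real_Icc_of_le (by linarith)] at h1
    linarith
  -- integrals
  have hI1 : (T - m) / 4 ≤ (∫ u in G, S u).re := by
    have h1 : (∫ u in G, S u).re = ∫ u in G, (S u).re := by
      have := integral_re (𝕜 := ℂ) (hSint.mono_set hG)
      simpa using this.symm
    rw [h1]
    have h2 : ∫ _ in G, (1 / 4 : ℝ) ≤ ∫ u in G, (S u).re := by
      refine setIntegral_mono_on ?_ ?_ hGm hre
      · exact integrableOn_const (ne_of_lt ((measure_mono hG).trans_lt (lt_top_iff_ne_top.2 hfin)))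
      · exact (hSint.mono_set hG).re
    rw [setIntegral_const, smul_eq_mul, hvol] at h2
    linarith
  have hI2 : ∫ u in G, S u = (∫ u in Icc T (2 * T), S u) - ∫ u in E, S u := by
    have h1 : Icc T (2 * T) = G ∪ E := by
      rw [hE, union_sdiff_cancel hG]
    have h2 : Disjoint G E := by rw [hE]; exact disjoint_sdiff_right
    have h3 : ∫ u in G ∪ E, S u = (∫ u in G, S u) + ∫ u in E, S u :=
      setIntegral_union h2 hEm (hSint.mono_set hG) (hSint.mono_set hEs)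
    rw [h1, h3]
    ring
  have hI3 : ‖∫ u in Icc T (2 * T), S u‖ ≤
      (C₃ * ℓ ^ C₃) * (C₁ * Real.sqrt T * T ^ (D / (2 * μ))) := by
    have h1 : ∫ u in Icc T (2 * T), S u =
        ∑ j ∈ mains f μ D T, ∫ u in T..(2 * T), KJ f Y β ℓ j u := by
      rw [hS, integral_finsetSum _ fun j _ => hint j]
      refine Finset.sum_congr rfl fun j _ => ?_
      rw [intervalIntegral.integral_of_le (by linarith), integral_Icc_eq_integral_Ioc]
    rw [h1]
    obtain ⟨hcard, hprod⟩ := hCN T hT33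
    rw [← hℓ] at hcard
    have hsq := Real.sqrt_nonneg T
    calc ‖∑ j ∈ mains f μ D T, ∫ u in T..(2 * T), KJ f Y β ℓ j u‖
        ≤ ∑ j ∈ mains f μ D T, (C₁ * Real.sqrt T * T ^ (D / (2 * μ))) := by
          refine norm_sum_le_of_le _ fun j hj => ?_
          have h2 := hFU T hT1 j
          rw [← hℓ] at h2
          refine h2.trans ?_
          have := hprod j hj
          gcongr
      _ = ((mains f μ D T).card : ℝ) * (C₁ * Real.sqrt T * T ^ (D / (2 * μ))) := by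
          rw [Finset.sum_const, nsmul_eq_mul]
      _ ≤ _ := by gcongr
  have hI4 : ‖∫ u in E, S u‖ ≤ (C₃ * ℓ ^ C₃) * (C₂ * ℓ ^ C₂ * m ^ δ * T ^ (1 - δ)) := by
    have h1 : ∫ u in E, S u = ∑ j ∈ mains f μ D T, ∫ u in E, KJ f Y β ℓ j u := by
      rw [hS, integral_finsetSum _ fun j _ => (hint j).mono_set hEs]
    rw [h1]
    obtain ⟨hcard, _⟩ := hCN T hT33
    rw [← hℓ] at hcard
    calc ‖∑ j ∈ mains f μ D T, ∫ u in E, KJ f Y β ℓ j u‖
        ≤ ∑ j ∈ mains f μ D T, (C₂ * ℓ ^ C₂ * m ^ δ * T ^ (1 - δ)) := by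
          refine norm_sum_le_of_le _ fun j hj => ?_
          have h2 := hBA T hT2 j hj E hEm hEs
          rw [← hℓ, ← hm] at h2
          exact (norm_integral_le_integral_norm _).trans h2
      _ = ((mains f μ D T).card : ℝ) * (C₂ * ℓ ^ C₂ * m ^ δ * T ^ (1 - δ)) := by
          rw [Finset.sum_const, nsmul_eq_mul]
      _ ≤ _ := by gcongr
  have hI5 : (T - m) / 4 ≤ (C₃ * ℓ ^ C₃) * (C₁ * Real.sqrt T * T ^ (D / (2 * μ))) +
      (C₃ * ℓ ^ C₃) * (C₂ * ℓ ^ C₂ * m ^ δ * T ^ (1 - δ)) := by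
    refine hI1.trans ((re_le_norm _).trans ?_)
    rw [hI2]
    exact (norm_sub_le _ _).trans (add_le_add hI3 hI4)
  have hI6 : (C₃ * ℓ ^ C₃) * (C₁ * Real.sqrt T * T ^ (D / (2 * μ))) ≤ T / 16 := by
    have h1 := hT₅ T hT5
    rw [← hℓ] at h1
    refine (le_of_eq ?_).trans h1
    rw [Real.sqrt_eq_rpow, Real.rpow_add hT0]
    ring
  have hℓA : 0 < ℓ ^ A := Real.rpow_pos_of_pos hℓ0 _
  rcases le_or_gt (T / 2) m with hcase | hcase
  · refine le_trans ?_ hcase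
    exact div_le_div_of_nonneg_left hT0.le (by norm_num) hpow2
  · have hI7 : T / 16 ≤ (C₃ * ℓ ^ C₃) * (C₂ * ℓ ^ C₂ * m ^ δ * T ^ (1 - δ)) := by
      linarith
    -- m ≥ T / ℓ^A
    by_contra hcon
    push Not at hcon
    have h1 : m ^ δ ≤ (T / ℓ ^ A) ^ δ := Real.rpow_le_rpow hm0 hcon.le hδ.le
    have h2 : (T / ℓ ^ A) ^ δ = T ^ δ / (ℓ ^ C₂ * ℓ ^ C₃ * ℓ) := by
      rw [Real.div_rpow hT0.le hℓA.le, ← Real.rpow_mul hℓ0.le, hAδ, Real.rpow_add hℓ0,
        Real.rpow_add hℓ0, Real.rpow_one]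
    have hTδ : T ^ δ * T ^ (1 - δ) = T := by
      rw [← Real.rpow_add hT0]
      simp
    have hp2 : 0 < ℓ ^ C₂ := Real.rpow_pos_of_pos hℓ0 _
    have hp3 : 0 < ℓ ^ C₃ := Real.rpow_pos_of_pos hℓ0 _
    have h3 : (C₃ * ℓ ^ C₃) * (C₂ * ℓ ^ C₂ * m ^ δ * T ^ (1 - δ)) ≤ C₂ * C₃ * T / ℓ := by
      calc (C₃ * ℓ ^ C₃) * (C₂ * ℓ ^ C₂ * m ^ δ * T ^ (1 - δ))
          ≤ (C₃ * ℓ ^ C₃) * (C₂ * ℓ ^ C₂ * (T ^ δ / (ℓ ^ C₂ * ℓ ^ C₃ * ℓ)) * T ^ (1 - δ)) := by
            rw [← h2]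
            have := Real.rpow_nonneg hT0.le (1 - δ)
            gcongr
        _ = C₂ * C₃ * (T ^ δ * T ^ (1 - δ)) / ℓ := by
            field_simp
        _ = _ := by rw [hTδ]
    have h4 : C₂ * C₃ * T / ℓ ≤ T / 16 := by
      rw [div_le_div_iff₀ hℓ0 (by norm_num)]
      nlinarith
    -- strictness: use the strict inequality in m
    have h5 : m ^ δ < (T / ℓ ^ A) ^ δ := Real.rpow_lt_rpow hm0 hcon hδ
    have h6 : (C₃ * ℓ ^ C₃) * (C₂ * ℓ ^ C₂ * m ^ δ * T ^ (1 - δ)) < C₂ * C₃ * T / ℓ := by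
      calc (C₃ * ℓ ^ C₃) * (C₂ * ℓ ^ C₂ * m ^ δ * T ^ (1 - δ))
          < (C₃ * ℓ ^ C₃) * (C₂ * ℓ ^ C₂ * (T ^ δ / (ℓ ^ C₂ * ℓ ^ C₃ * ℓ)) * T ^ (1 - δ)) := by
            rw [← h2]
            have := Real.rpow_pos_of_pos hT0 (1 - δ)
            gcongr
        _ = C₂ * C₃ * (T ^ δ * T ^ (1 - δ)) / ℓ := by
            field_simp
        _ = _ := by rw [hTδ]
    linarith

end Pool.Agent.H25.DL
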