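import Pool.Agent.H25.DL.Targets3

/-!
# (BA2) the average over the bad heights
-/

set_option autoImplicit false

open Complex MeasureTheory Set
open scoped ENNReal

namespace Pool.Agent.H25.DL

/-- Hölder's inequality for a finite product over a subset of an interval. -/
lemma holder_prod {ι : Type} [Fintype ι] (g : ι → ℝ → ℂ) (hg : ∀ l, Continuous (g l))
    (p : ι → ℕ) (hp : ∀ l, 1 ≤ p l) (q : ℝ) (hq : 0 ≤ q)
    (hpq : q + ∑ l, (1 : ℝ) / (2 * (p l : ℝ)) = 1) (E : Set ℝ) :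
    ∫⁻ u in E, ∏ l, ‖g l u‖ₑ ≤
      (volume E) ^ q * ∏ l, (∫⁻ u in E, ‖g l u‖ₑ ^ (2 * p l)) ^ ((1 : ℝ) / (2 * (p l : ℝ))) := by
  have h1 := ENNReal.lintegral_mul_prod_norm_pow_le (μ := volume.restrict E) Finset.univ
    (g := fun _ => (1 : ℝ≥0∞)) (f := fun l u => ‖g l u‖ₑ ^ (2 * p l)) aemeasurable_const
    (fun l _ => by
      have : Continuous fun u => ‖g l u‖ₑ ^ (2 * p l) := by
        have := hg l
        fun_prop
      exact this.aemeasurable) q (p := fun l => (1 : ℝ) / (2 * (p l : ℝ))) hpq hq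
    (fun l _ => by positivity)
  have h2 : ∀ u, (1 : ℝ≥0∞) ^ q * ∏ l, (‖g l u‖ₑ ^ (2 * p l)) ^ ((1 : ℝ) / (2 * (p l : ℝ))) =
      ∏ l, ‖g l u‖ₑ := by
    intro u
    rw [ENNReal.one_rpow, one_mul]
    refine Finset.prod_congr rfl fun l _ => ?_
    rw [← ENNReal.rpow_natCast, ← ENNReal.rpow_mul]
    have h3 : ((2 * p l : ℕ) : ℝ) * ((1 : ℝ) / (2 * (p l : ℝ))) = 1 := by
      have : (p l : ℝ) ≠ 0 := by
        have := hp l
        positivity
      push_cast
      field_simp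
    rw [h3, ENNReal.rpow_one]
  simp only [h2] at h1
  simpa using h1

/-- shifting the height of a block -/
lemma B_shift (f : Fac) (x : ℝ) (j : ℕ) (t : ℝ) :
    f.B j (1 / 2 + (t + x : ℝ) * I) =
      ({ f with τ := f.τ + f.r * x } : Fac).B j (1 / 2 + t * I) := by
  unfold Fac.B
  refine Finset.sum_congr rfl fun n _ => ?_
  congr 2
  unfold wl
  push_cast
  ring

lemma B_continuous (f : Fac) (j : ℕ) : Continuous fun t : ℝ => f.B j (1 / 2 + t * I) := by
  unfold Fac.B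
  refine continuous_finsetSum _ fun n hn => ?_
  have hn0 : (n : ℂ) ≠ 0 := by
    have h1 := (Finset.mem_Ico.1 hn).1
    have h2 : 0 < 2 ^ j := by positivity
    exact_mod_cast (h2.trans_le h1).ne'
  refine continuous_const.mul ?_
  have : Continuous fun t : ℝ => -(wl f.r f.τ (1 / 2 + t * I)) := by
    unfold wl
    fun_prop
  exact this.const_cpow (Or.inl hn0)

/-- moments over an interval -/
lemma moment (hMO : T_MO) (k : ℕ) (r : ℝ) (hk : 1 ≤ k) (hr : 0 < r) : ∃ C : ℝ, 1 ≤ C ∧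
    ∀ (f : Fac) (W a x : ℝ) (j : ℕ), f.r = r → 3 ≤ W → ((2 : ℝ) ^ j) ^ k ≤ W →
    ∫⁻ t in Icc a (a + W), ‖f.B j (1 / 2 + (t + x : ℝ) * I)‖ₑ ^ (2 * k) ≤
      ENNReal.ofReal (C * W * Real.log W ^ C) := by
  obtain ⟨C, hC, h⟩ := hMO k r hk hr
  refine ⟨max C 1, le_max_right _ _, fun f W a x j hf hW hjW => ?_⟩
  have h1 := h ({ f with τ := f.τ + f.r * (a + x) } : Fac) W j hf hW hjW
  have hlog1 : 1 ≤ Real.log W := by
    rw [Real.le_log_iff_exp_le (by linarith)]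
    have := Real.exp_one_lt_d9
    linarith
  have h2 : ∀ t : ℝ, ({ f with τ := f.τ + f.r * (a + x) } : Fac).B j (1 / 2 + t * I) =
      f.B j (1 / 2 + (t + (a + x) : ℝ) * I) := fun t => (B_shift f (a + x) j t).symm
  simp only [h2] at h1
  -- translate
  have h3 : ∫⁻ t in Icc a (a + W), ‖f.B j (1 / 2 + (t + x : ℝ) * I)‖ₑ ^ (2 * k) =
      ∫⁻ t in Icc 0 W, ‖f.B j (1 / 2 + (t + (a + x) : ℝ) * I)‖ₑ ^ (2 * k) := by
    have h4 : Icc 0 W = (fun t => t + a) ⁻¹' Icc a (a + W) := by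
      ext t
      simp only [mem_Icc, mem_preimage]
      constructor <;> rintro ⟨h5, h6⟩ <;> constructor <;> linarith
    have h5 := (measurePreserving_add_right volume a).setLIntegral_comp_preimage_emb
      (measurableEmbedding_addRight a) (fun t => ‖f.B j (1 / 2 + (t + x : ℝ) * I)‖ₑ ^ (2 * k))
      (Icc a (a + W))
    rw [h4, ← h5]
    refine lintegral_congr fun t => ?_
    rw [add_assoc]
  rw [h3]
  have hc : Continuous fun t : ℝ => f.B j (1 / 2 + (t + (a + x) : ℝ) * I) := by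
    have := (B_continuous f j).comp (continuous_id.add (continuous_const (y := a + x)))
    exact this
  have h5 : ∫⁻ t in Icc 0 W, ‖f.B j (1 / 2 + (t + (a + x) : ℝ) * I)‖ₑ ^ (2 * k) ≤
      ∫⁻ t in Ioc 0 (4 * W), ‖f.B j (1 / 2 + (t + (a + x) : ℝ) * I)‖ₑ ^ (2 * k) := by
    rw [setLIntegral_congr Ioc_ae_eq_Icc.symm]
    exact lintegral_mono_set (Ioc_subset_Ioc_right (by linarith))
  refine h5.trans ?_
  have h6 : ∫⁻ t in Ioc 0 (4 * W), ‖f.B j (1 / 2 + (t + (a + x) : ℝ) * I)‖ₑ ^ (2 * k) =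
      ENNReal.ofReal (∫ t in Ioc 0 (4 * W), ‖f.B j (1 / 2 + (t + (a + x) : ℝ) * I)‖ ^ (2 * k)) := by
    rw [ofReal_integral_eq_lintegral_ofReal]
    · refine lintegral_congr fun t => ?_
      rw [ENNReal.ofReal_pow (norm_nonneg _), ofReal_norm]
    · have : Continuous fun t : ℝ => ‖f.B j (1 / 2 + (t + (a + x) : ℝ) * I)‖ ^ (2 * k) :=
        hc.norm.pow _
      exact this.integrableOn_Ioc
    · exact Filter.Eventually.of_forall fun t => by positivity
  rw [h6]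
  refine ENNReal.ofReal_le_ofReal ?_
  rw [← intervalIntegral.integral_of_le (by linarith)]
  refine h1.trans ?_
  have h7 : Real.log W ^ C ≤ Real.log W ^ (max C 1) :=
    Real.rpow_le_rpow_of_exponent_le hlog1 (le_max_left _ _)
  have h8 : 0 ≤ Real.log W ^ C := Real.rpow_nonneg (by linarith) _
  have h9 : C ≤ max C 1 := le_max_left _ _
  gcongr

/-- the choice of the exponents -/
lemma exponents {ι : Type} [Fintype ι] (x : ι → ℝ) (hx : ∀ l, 0 ≤ x l) (lam ρ : ℝ)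
    (hlam : 0 < lam) (hρ : ρ < 1) (hsum : ∑ l, x l ≤ ρ * lam) (K : ℕ) (hK : 1 ≤ K) :
    ∃ k : ι → ℕ, (∀ l, 1 ≤ k l) ∧ (∀ l, k l ≤ K) ∧ (∀ l, (k l : ℝ) * x l ≤ lam) ∧
      ∑ l, (1 : ℝ) / (2 * (k l : ℝ)) ≤ ρ + (Fintype.card ι : ℝ) / (2 * K) := by
  have hK0 : (0 : ℝ) < K := by exact_mod_cast hK
  have h1 : ∀ l, x l ≤ ρ * lam := fun l =>
    (Finset.single_le_sum (fun i _ => hx i) (Finset.mem_univ l)).trans hsum
  have h2 : ∀ l, ∃ k : ℕ, 1 ≤ k ∧ k ≤ K ∧ (k : ℝ) * x l ≤ lam ∧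
      (1 : ℝ) / (2 * (k : ℝ)) ≤ x l / lam + 1 / (2 * K) := by
    intro l
    by_cases h3 : (K : ℝ) * x l ≤ lam
    · refine ⟨K, hK, le_refl _, h3, ?_⟩
      have : 0 ≤ x l / lam := div_nonneg (hx l) hlam.le
      linarith
    · push Not at h3
      have hx0 : 0 < x l := by
        by_contra h4
        have h5 : x l = 0 := le_antisymm (not_lt.1 h4) (hx l)
        rw [h5, mul_zero] at h3
        linarith
      have h4 : x l < lam := by
        have := h1 l
        nlinarith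
      have h5 : 1 ≤ lam / x l := by
        rw [le_div_iff₀ hx0]
        linarith
      have h6 : 1 ≤ ⌊lam / x l⌋₊ := Nat.le_floor (by exact_mod_cast h5)
      have h7 : (⌊lam / x l⌋₊ : ℝ) ≤ lam / x l := Nat.floor_le (by positivity)
      have h8 : lam / x l < ⌊lam / x l⌋₊ + 1 := Nat.lt_floor_add_one _
      refine ⟨⌊lam / x l⌋₊, h6, ?_, ?_, ?_⟩
      · have h9 : lam / x l < K := by
          rw [div_lt_iff₀ hx0]
          exact h3
        have h10 : (⌊lam / x l⌋₊ : ℝ) < K := h7.trans_lt h9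
        exact_mod_cast h10.le
      · rwa [le_div_iff₀ hx0] at h7
      · have h9 : (1 : ℝ) ≤ ⌊lam / x l⌋₊ := by exact_mod_cast h6
        have h10 : lam / x l ≤ 2 * ⌊lam / x l⌋₊ := by linarith
        have h11 : (1 : ℝ) / (2 * (⌊lam / x l⌋₊ : ℝ)) ≤ x l / lam := by
          rw [div_le_div_iff₀ (by positivity) hlam]
          rw [div_le_iff₀ hx0] at h10
          linarith
        have h12 : 0 < 1 / (2 * (K : ℝ)) := by positivity
        linarith
  choose k hk using h2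
  refine ⟨k, fun l => (hk l).1, fun l => (hk l).2.1, fun l => (hk l).2.2.1, ?_⟩
  calc ∑ l, (1 : ℝ) / (2 * (k l : ℝ)) ≤ ∑ l, (x l / lam + 1 / (2 * K)) :=
        Finset.sum_le_sum fun l _ => (hk l).2.2.2
    _ = (∑ l, x l) / lam + (Fintype.card ι : ℝ) / (2 * K) := by
        rw [Finset.sum_add_distrib, Finset.sum_div, Finset.sum_const, Finset.card_univ,
          nsmul_eq_mul]
        ring
    _ ≤ ρ + (Fintype.card ι : ℝ) / (2 * K) := by
        have : (∑ l, x l) / lam ≤ ρ := by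
          rw [div_le_iff₀ hlam]
          exact hsum
        linarith

/-- powers of the constants -/
lemma rpow_bound {ι : Type} [Fintype ι] (k : ι → ℕ) (hk : ∀ l, 1 ≤ k l) (c W X δ θ : ℝ)
    (hc : 1 ≤ c) (hW : 0 < W) (hX : 0 ≤ X) (hXW : X ≤ W) (hδ : 0 < δ)
    (hθ : θ = ∑ l, (1 : ℝ) / (2 * (k l : ℝ))) (hδθ : δ ≤ 1 - θ) :
    X ^ (1 - θ) * ∏ l, (c * W) ^ ((1 : ℝ) / (2 * (k l : ℝ))) ≤
      c ^ (Fintype.card ι) * (X ^ δ * W ^ (1 - δ)) := by
  have hc0 : 0 < c := by linarith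
  have h1 : ∏ l, (c * W) ^ ((1 : ℝ) / (2 * (k l : ℝ))) ≤ c ^ (Fintype.card ι) * W ^ θ := by
    have h2 : ∀ l, (c * W) ^ ((1 : ℝ) / (2 * (k l : ℝ))) ≤
        c * W ^ ((1 : ℝ) / (2 * (k l : ℝ))) := by
      intro l
      rw [Real.mul_rpow hc0.le hW.le]
      have h3 : (1 : ℝ) ≤ k l := by exact_mod_cast hk l
      have h4 : (1 : ℝ) / (2 * (k l : ℝ)) ≤ 1 := by
        rw [div_le_one (by positivity)]
        linarith
      have h5 : c ^ ((1 : ℝ) / (2 * (k l : ℝ))) ≤ c ^ (1 : ℝ) :=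
        Real.rpow_le_rpow_of_exponent_le hc h4
      rw [Real.rpow_one] at h5
      have h6 : 0 ≤ W ^ ((1 : ℝ) / (2 * (k l : ℝ))) := Real.rpow_nonneg hW.le _
      gcongr
    calc ∏ l, (c * W) ^ ((1 : ℝ) / (2 * (k l : ℝ))) ≤
          ∏ l, (c * W ^ ((1 : ℝ) / (2 * (k l : ℝ)))) :=
          Finset.prod_le_prod (fun l _ => Real.rpow_nonneg (by positivity) _) fun l _ => h2 l
      _ = c ^ (Fintype.card ι) * W ^ θ := by
          rw [Finset.prod_mul_distrib, Finset.prod_const, Finset.card_univ, hθ,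
            Real.rpow_sum_of_pos hW]
  have h7 : X ^ (1 - θ) * W ^ θ ≤ X ^ δ * W ^ (1 - δ) := by
    have h8 : X ^ (1 - θ) = X ^ δ * X ^ (1 - θ - δ) := by
      rw [← Real.rpow_add_of_nonneg hX hδ.le (by linarith)]
      congr 1
      ring
    have h9 : X ^ (1 - θ - δ) ≤ W ^ (1 - θ - δ) := Real.rpow_le_rpow hX hXW (by linarith)
    have h10 : W ^ (1 - δ) = W ^ (1 - θ - δ) * W ^ θ := by
      rw [← Real.rpow_add hW]
      congr 1
      ring
    rw [h8, h10]
    have h11 : 0 ≤ X ^ δ := Real.rpow_nonneg hX _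
    have h12 : 0 ≤ W ^ θ := Real.rpow_nonneg hW.le _
    calc X ^ δ * X ^ (1 - θ - δ) * W ^ θ ≤ X ^ δ * W ^ (1 - θ - δ) * W ^ θ := by gcongr
      _ = X ^ δ * (W ^ (1 - θ - δ) * W ^ θ) := by ring
  have h13 : 0 ≤ X ^ (1 - θ) := Real.rpow_nonneg hX _
  calc X ^ (1 - θ) * ∏ l, (c * W) ^ ((1 : ℝ) / (2 * (k l : ℝ)))
      ≤ X ^ (1 - θ) * (c ^ (Fintype.card ι) * W ^ θ) := by gcongr
    _ = c ^ (Fintype.card ι) * (X ^ (1 - θ) * W ^ θ) := by ring
    _ ≤ c ^ (Fintype.card ι) * (X ^ δ * W ^ (1 - δ)) := by gcongr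

lemma gs_lintegral (β : ℝ) (hβ : 0 < β) : ∃ C : ℝ, 0 ≤ C ∧
    ∫⁻ y : ℝ, ‖gs β (y * I)‖ₑ ≤ ENNReal.ofReal C := by
  have h1 : Integrable fun y : ℝ => gs β (y * I) := by
    have h2 : (fun y : ℝ => gs β (y * I)) = fun y : ℝ =>
        ((Real.exp (-(1 / β ^ 2) * y ^ 2) / (β * Real.sqrt Real.pi) : ℝ) : ℂ) := by
      funext y
      unfold gs
      push_cast
      congr 2
      rw [div_pow, mul_pow, I_sq]
      ring
    rw [h2]
    refine Integrable.ofReal ?_
    exact (integrable_exp_neg_mul_sq (by positivity)).div_const _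
  refine ⟨∫ y : ℝ, ‖gs β (y * I)‖, integral_nonneg fun _ => norm_nonneg _, ?_⟩
  rw [ofReal_integral_norm_eq_lintegral_enorm h1]

/-- (BA2) -/
theorem ba2 (hMO : T_MO) : T_BA2 := by
  intro ι _ f Y d t₀ β μ D κ hβ hY hD hμ hDκ hκ1 hr
  classical
  have hκ0 : 0 < κ := lt_of_le_of_lt (by positivity) hDκ
  obtain ⟨ω, B₁, η, CY, hω, hCY⟩ := hY.main
  obtain ⟨ρ, hρ⟩ : ∃ ρ : ℝ, ρ = D / μ / κ := ⟨_, rfl⟩
  have hρ0 : 0 < ρ := by rw [hρ]; positivity
  have hρ1 : ρ < 1 := by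
    rw [hρ, div_lt_one hκ0]
    exact hDκ
  obtain ⟨L, hL⟩ : ∃ L : ℕ, L = Fintype.card ι := ⟨_, rfl⟩
  obtain ⟨δ, hδ⟩ : ∃ δ : ℝ, δ = (1 - ρ) / 2 := ⟨_, rfl⟩
  have hδ0 : 0 < δ := by rw [hδ]; linarith
  obtain ⟨K, hK1, hKL⟩ : ∃ K : ℕ, 1 ≤ K ∧ (L : ℝ) / (2 * K) ≤ δ := by
    refine ⟨⌈(L : ℝ) / (2 * δ)⌉₊ + 1, by omega, ?_⟩
    have h1 := Nat.le_ceil ((L : ℝ) / (2 * δ))
    rw [div_le_iff₀ (by positivity)]
    rw [div_le_iff₀ (by positivity)] at h1
    push_cast
    nlinarith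
  -- moments
  choose Cm hCm using fun (p : {k : ℕ // 1 ≤ k}) (l : ι) =>
    moment hMO p.1 (f l).r p.2 (f l).r_pos
  obtain ⟨Cx, hCx1, hCx⟩ : ∃ Cx : ℝ, 1 ≤ Cx ∧ ∀ (k : ℕ) (hk : 1 ≤ k) (l : ι), k ≤ K →
      Cm ⟨k, hk⟩ l ≤ Cx := by
    refine ⟨1 + ∑ k ∈ Finset.range (K + 1), ∑ l, if hk : 1 ≤ k then Cm ⟨k, hk⟩ l else 0, ?_, ?_⟩
    · have : 0 ≤ ∑ k ∈ Finset.range (K + 1), ∑ l, if hk : 1 ≤ k then Cm ⟨k, hk⟩ l else 0 :=
        Finset.sum_nonneg fun k _ => Finset.sum_nonneg fun l _ => by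
          split_ifs with hk
          · linarith [(hCm ⟨k, hk⟩ l).1]
          · exact le_refl _
      linarith
    · intro k hk l hkK
      have h1 : (∑ l, if hk : 1 ≤ k then Cm ⟨k, hk⟩ l else 0) ≤
          ∑ k ∈ Finset.range (K + 1), ∑ l, if hk : 1 ≤ k then Cm ⟨k, hk⟩ l else 0 :=
        Finset.single_le_sum (f := fun k => ∑ l, if hk : 1 ≤ k then Cm ⟨k, hk⟩ l else 0)
          (fun k _ => Finset.sum_nonneg fun l _ => by
            split_ifs with hk
            · linarith [(hCm ⟨k, hk⟩ l).1]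
            · exact le_refl _) (Finset.mem_range.2 (by omega))
      have h2 : (if hk : 1 ≤ k then Cm ⟨k, hk⟩ l else 0) ≤
          ∑ l, if hk : 1 ≤ k then Cm ⟨k, hk⟩ l else 0 :=
        Finset.single_le_sum (f := fun l => if hk : 1 ≤ k then Cm ⟨k, hk⟩ l else 0)
          (fun l _ => by
            change 0 ≤ if hk : 1 ≤ k then Cm ⟨k, hk⟩ l else 0
            rw [dif_pos hk]
            linarith [(hCm ⟨k, hk⟩ l).1]) (Finset.mem_univ l)
      rw [dif_pos hk] at h2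
      linarith
  obtain ⟨Cg, hCg0, hCg⟩ := gs_lintegral β hβ
  obtain ⟨C, hC⟩ : ∃ C : ℝ, C = 2 * Cg * Cx ^ L + Cx * L + 1 := ⟨_, rfl⟩
  have hC0 : 0 < C := by rw [hC]; positivity
  -- large T
  have hlogT := Real.tendsto_log_atTop
  have hTlog : Filter.Tendsto (fun T : ℝ => T - Real.log T) Filter.atTop Filter.atTop := by
    have h1 : ∀ᶠ T : ℝ in Filter.atTop, T / 2 ≤ T - Real.log T := by
      have h2 := Real.isLittleO_log_id_atTop.bound (show (0 : ℝ) < 1 / 2 by norm_num)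
      filter_upwards [h2, Filter.eventually_ge_atTop (1 : ℝ)] with T hT hT1
      rw [Real.norm_of_nonneg (Real.log_nonneg hT1), id, Real.norm_of_nonneg (by linarith)] at hT
      linarith
    exact Filter.tendsto_atTop_mono' _ h1 (Filter.tendsto_id.atTop_div_const (by norm_num))
  obtain ⟨T₀, hT₀⟩ := Filter.eventually_atTop.1 ((hlogT.eventually_ge_atTop 1).and
    ((hTlog.eventually_ge_atTop (max t₀ |CY|)).and
      (((tendsto_rpow_atTop hκ0).eventually_ge_atTop 3).and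
        (Filter.eventually_ge_atTop (3 : ℝ)))))
  refine ⟨δ, C, T₀, hδ0, by rw [hδ]; linarith, hC0, fun T hT j hj a W haT haW hW E hE hEs => ?_⟩
  obtain ⟨hl1, hTl, hT3, hT3'⟩ := hT₀ T hT
  have hT0 : 0 < T := by linarith
  have hW3 : 3 ≤ W := hT3.trans hW
  have hW0 : 0 < W := by linarith
  have hWT : W ≤ T := by linarith
  obtain ⟨lam, hlam⟩ : ∃ lam : ℝ, lam = Real.log W := ⟨_, rfl⟩
  have hlam0 : 0 < lam := by rw [hlam]; exact Real.log_pos (by linarith)
  have hlamT : κ * Real.log T ≤ lam := by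
    rw [hlam, ← Real.log_rpow hT0]
    exact Real.log_le_log (Real.rpow_pos_of_pos hT0 _) hW
  -- sizes of the blocks
  have hj1 : ∑ l, (j l : ℝ) * Real.log 2 ≤ ρ * lam := by
    unfold mains at hj
    have h1 := (Finset.mem_filter.1 hj).2
    have hlog2 : 0 < Real.log 2 := Real.log_pos (by norm_num)
    have h2 : μ * ∑ l, (j l : ℝ) * Real.log 2 ≤ D * Real.log T := by
      refine le_trans ?_ h1
      rw [Finset.mul_sum]
      refine Finset.sum_le_sum fun l _ => ?_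
      have h3 := hr l
      have h4 : 0 ≤ (j l : ℝ) * Real.log 2 := by positivity
      nlinarith
    have h3 : ∑ l, (j l : ℝ) * Real.log 2 ≤ D / μ * Real.log T := by
      rw [div_mul_eq_mul_div, le_div_iff₀ hμ]
      linarith
    refine h3.trans ?_
    have h4 : D / μ = ρ * κ := by
      rw [hρ]
      field_simp
    rw [h4, mul_assoc]
    exact mul_le_mul_of_nonneg_left hlamT hρ0.le
  obtain ⟨k, hk1, hkK, hkx, hkθ⟩ := exponents (fun l => (j l : ℝ) * Real.log 2)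
    (fun l => by positivity) lam ρ hlam0 hρ1 hj1 K hK1
  obtain ⟨θ, hθ⟩ : ∃ θ : ℝ, θ = ∑ l, (1 : ℝ) / (2 * (k l : ℝ)) := ⟨_, rfl⟩
  rw [← hθ, ← hL] at hkθ
  have hδθ : δ ≤ 1 - θ := by
    rw [hδ] at hKL ⊢
    linarith
  -- the constants
  obtain ⟨c, hc⟩ : ∃ c : ℝ, c = Cx * Real.log T ^ Cx := ⟨_, rfl⟩
  have hlogCx : 1 ≤ Real.log T ^ Cx := Real.one_le_rpow hl1 (by linarith)
  have hc1 : 1 ≤ c := by
    rw [hc]
    nlinarith
  have hX0 : 0 ≤ volume.real E := measureReal_nonneg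
  have hvolE : volume E ≤ ENNReal.ofReal W := by
    refine (measure_mono hEs).trans ?_
    rw [Real.volume_Icc]
    exact ENNReal.ofReal_le_ofReal (by linarith)
  have hvolE' : volume E ≠ ⊤ := ne_top_of_le_ne_top ENNReal.ofReal_ne_top hvolE
  have hXW : volume.real E ≤ W := ENNReal.toReal_le_of_le_ofReal hW0.le hvolE
  have hmom : ∀ (l : ι) (y : ℝ),
      ∫⁻ u in E, ‖(f l).B (j l) (1 / 2 + (u + y : ℝ) * I)‖ₑ ^ (2 * k l) ≤
        ENNReal.ofReal (c * W) := by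
    intro l y
    refine (lintegral_mono_set hEs).trans ?_
    have h1 := (hCm ⟨k l, hk1 l⟩ l).2 (f l) W a y (j l) rfl hW3 (by
      have h2 := hkx l
      have h3 : ((2 : ℝ) ^ j l) ^ k l = Real.exp ((k l : ℝ) * ((j l : ℝ) * Real.log 2)) := by
        rw [← pow_mul, ← Real.rpow_natCast, Real.rpow_def_of_pos (by norm_num)]
        congr 1
        push_cast
        ring
      rw [h3]
      calc Real.exp ((k l : ℝ) * ((j l : ℝ) * Real.log 2)) ≤ Real.exp lam :=
            Real.exp_le_exp.2 h2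
        _ = W := by rw [hlam, Real.exp_log hW0])
    refine h1.trans (ENNReal.ofReal_le_ofReal ?_)
    have h4 := hCx (k l) (hk1 l) l (hkK l)
    have h5 := (hCm ⟨k l, hk1 l⟩ l).1
    have hlW : 0 ≤ Real.log W := by rw [← hlam]; exact hlam0.le
    have h6 : Real.log W ^ (Cm ⟨k l, hk1 l⟩ l) ≤ Real.log T ^ Cx := by
      calc Real.log W ^ (Cm ⟨k l, hk1 l⟩ l) ≤ Real.log T ^ (Cm ⟨k l, hk1 l⟩ l) :=
            Real.rpow_le_rpow hlW (Real.log_le_log hW0 hWT) (by linarith)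
        _ ≤ Real.log T ^ Cx := Real.rpow_le_rpow_of_exponent_le hl1 h4
    have h7 : 0 ≤ Real.log W ^ (Cm ⟨k l, hk1 l⟩ l) := Real.rpow_nonneg hlW _
    calc Cm ⟨k l, hk1 l⟩ l * W * Real.log W ^ (Cm ⟨k l, hk1 l⟩ l)
        ≤ Cx * W * Real.log T ^ Cx := by gcongr
      _ = c * W := by rw [hc]; ring
  obtain ⟨M, hM⟩ : ∃ M : ℝ, M = volume.real E ^ (1 - θ) *
      ∏ l, (c * W) ^ ((1 : ℝ) / (2 * (k l : ℝ))) := ⟨_, rfl⟩
  have hcW : 0 ≤ c * W := by positivity
  have hM0 : 0 ≤ M := by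
    rw [hM]
    exact mul_nonneg (Real.rpow_nonneg hX0 _) (Finset.prod_nonneg fun l _ =>
      Real.rpow_nonneg hcW _)
  have hHol : ∀ y : ℝ, ∫⁻ u in E, ‖Pj f j (1 / 2 + (u + y : ℝ) * I)‖ₑ ≤ ENNReal.ofReal M := by
    intro y
    have h1 := holder_prod (fun l u => (f l).B (j l) (1 / 2 + (u + y : ℝ) * I))
      (fun l => (B_continuous (f l) (j l)).comp (continuous_id.add (continuous_const (y := y))))
      k hk1 (1 - θ) (by linarith) (by rw [← hθ]; ring) E
    have h2 : ∀ u : ℝ, ‖Pj f j (1 / 2 + (u + y : ℝ) * I)‖ₑ =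
        ∏ l, ‖(f l).B (j l) (1 / 2 + (u + y : ℝ) * I)‖ₑ := by
      intro u
      unfold Pj
      rw [← ofReal_norm, norm_prod, ENNReal.ofReal_prod_of_nonneg fun l _ => norm_nonneg _]
      exact Finset.prod_congr rfl fun l _ => ofReal_norm _
    simp only [h2]
    refine h1.trans ?_
    have h3 : (volume E) ^ (1 - θ) = ENNReal.ofReal (volume.real E ^ (1 - θ)) := by
      rw [← ENNReal.ofReal_rpow_of_nonneg hX0 (by linarith), Measure.real,
        ENNReal.ofReal_toReal hvolE']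
    rw [h3, hM, ENNReal.ofReal_mul (Real.rpow_nonneg hX0 _),
      ENNReal.ofReal_prod_of_nonneg fun l _ => Real.rpow_nonneg hcW _]
    refine mul_le_mul_right ?_ _
    refine Finset.prod_le_prod' fun l _ => ?_
    rw [← ENNReal.ofReal_rpow_of_nonneg hcW (by positivity)]
    exact ENNReal.rpow_le_rpow (hmom l y) (by positivity)
  -- the inverse factor
  have hY2 : ∀ t : ℝ, T - Real.log T ≤ t → ‖Y (1 / 2 + t * I)‖ₑ ≤ 2 := by
    intro t ht
    have h1 : max t₀ |CY| ≤ t := hTl.trans ht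
    have h2 := hCY t ((le_max_left _ _).trans h1)
    have ht1 : 1 ≤ t := hY.one_le.trans ((le_max_left _ _).trans h1)
    have h3 : CY / t ≤ 1 := by
      rw [div_le_one (by linarith)]
      exact (le_abs_self _).trans ((le_max_right _ _).trans h1)
    have h4 : ‖Y (1 / 2 + t * I)‖ ≤ 2 := by
      have h5 : ‖ω * cexp ((d * t * Real.log t + B₁ * t + η * Real.log t : ℝ) * I)‖ = 1 := by
        rw [norm_mul, hω, Complex.norm_exp_ofReal_mul_I, one_mul]
      have h6 := norm_le_norm_add_norm_sub' (Y (1 / 2 + t * I))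
        (ω * cexp ((d * t * Real.log t + B₁ * t + η * Real.log t : ℝ) * I))
      rw [h5] at h6
      linarith
    rw [← ofReal_norm]
    calc ENNReal.ofReal ‖Y (1 / 2 + t * I)‖ ≤ ENNReal.ofReal 2 := ENNReal.ofReal_le_ofReal h4
      _ = 2 := by norm_num
  -- Tonelli
  have hmain : ∫⁻ u in E, ‖KJ f Y β (Real.log T) j u‖ₑ ≤ ENNReal.ofReal (2 * Cg * M) := by
    have hR : -Real.log T ≤ Real.log T := by linarith
    have h1 : ∀ u ∈ E, ‖KJ f Y β (Real.log T) j u‖ₑ ≤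
        ∫⁻ y in Ioc (-Real.log T) (Real.log T),
          2 * ‖gs β (y * I)‖ₑ * ‖Pj f j (1 / 2 + (u + y : ℝ) * I)‖ₑ := by
      intro u hu
      unfold KJ
      rw [intervalIntegral.integral_of_le hR]
      refine (enorm_integral_le_lintegral_enorm _).trans ?_
      refine setLIntegral_mono' measurableSet_Ioc fun y hy => ?_
      rw [enorm_mul, enorm_mul]
      have h2 : T - Real.log T ≤ u + y := by
        have := (hEs hu).1
        have := hy.1
        linarith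
      have h3 := hY2 (u + y) h2
      calc ‖Pj f j (1 / 2 + (u + y : ℝ) * I)‖ₑ * ‖Y (1 / 2 + (u + y : ℝ) * I)‖ₑ * ‖gs β (y * I)‖ₑ
          ≤ ‖Pj f j (1 / 2 + (u + y : ℝ) * I)‖ₑ * 2 * ‖gs β (y * I)‖ₑ := by gcongr
        _ = 2 * ‖gs β (y * I)‖ₑ * ‖Pj f j (1 / 2 + (u + y : ℝ) * I)‖ₑ := by ring
    have hgc : Continuous fun y : ℝ => gs β (y * I) := by
      unfold gs
      fun_prop
    have hPc : Continuous fun t : ℝ => Pj f j (1 / 2 + t * I) := by
      unfold Pj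
      exact continuous_finsetProd _ fun l _ => B_continuous (f l) (j l)
    have hPc2 : Continuous fun q : ℝ × ℝ => Pj f j (1 / 2 + (q.1 + q.2 : ℝ) * I) :=
      hPc.comp (continuous_fst.add continuous_snd)
    calc ∫⁻ u in E, ‖KJ f Y β (Real.log T) j u‖ₑ
        ≤ ∫⁻ u in E, ∫⁻ y in Ioc (-Real.log T) (Real.log T),
            2 * ‖gs β (y * I)‖ₑ * ‖Pj f j (1 / 2 + (u + y : ℝ) * I)‖ₑ :=
          setLIntegral_mono' hE h1
      _ = ∫⁻ y in Ioc (-Real.log T) (Real.log T), ∫⁻ u in E,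
            2 * ‖gs β (y * I)‖ₑ * ‖Pj f j (1 / 2 + (u + y : ℝ) * I)‖ₑ := by
          refine lintegral_lintegral_swap ?_
          have h4 : Continuous fun q : ℝ × ℝ => (2 : ℝ≥0∞) * ‖gs β (q.2 * I)‖ₑ := by
            have h5 : Continuous fun q : ℝ × ℝ => ‖gs β (q.2 * I)‖ₑ :=
              (hgc.comp continuous_snd).enorm
            exact ENNReal.continuous_const_mul (by norm_num) |>.comp h5
          exact (h4.measurable.mul hPc2.enorm.measurable).aemeasurable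
      _ = ∫⁻ y in Ioc (-Real.log T) (Real.log T), 2 * ‖gs β (y * I)‖ₑ *
            ∫⁻ u in E, ‖Pj f j (1 / 2 + (u + y : ℝ) * I)‖ₑ := by
          refine lintegral_congr fun y => ?_
          rw [lintegral_const_mul]
          have : Continuous fun u : ℝ => Pj f j (1 / 2 + (u + y : ℝ) * I) :=
            hPc.comp (continuous_id.add (continuous_const (y := y)))
          exact this.enorm.measurable
      _ ≤ ∫⁻ y in Ioc (-Real.log T) (Real.log T), 2 * ‖gs β (y * I)‖ₑ * ENNReal.ofReal M := by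
          refine lintegral_mono fun y => ?_
          have := hHol y
          gcongr
      _ ≤ ∫⁻ y : ℝ, 2 * ‖gs β (y * I)‖ₑ * ENNReal.ofReal M :=
          setLIntegral_le_lintegral _ _
      _ = 2 * (∫⁻ y : ℝ, ‖gs β (y * I)‖ₑ) * ENNReal.ofReal M := by
          rw [lintegral_mul_const _ (by
            exact (hgc.enorm.measurable).const_mul 2), lintegral_const_mul _ hgc.enorm.measurable]
      _ ≤ 2 * ENNReal.ofReal Cg * ENNReal.ofReal M := by gcongr
      _ = ENNReal.ofReal (2 * Cg * M) := by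
          rw [ENNReal.ofReal_mul (by positivity), ENNReal.ofReal_mul (by norm_num)]
          norm_num
  have hfin : ∫ u in E, ‖KJ f Y β (Real.log T) j u‖ ≤ 2 * Cg * M := by
    by_cases hint : Integrable (fun u => ‖KJ f Y β (Real.log T) j u‖) (volume.restrict E)
    · have h1 := ofReal_integral_eq_lintegral_ofReal hint
        (Filter.Eventually.of_forall fun u => norm_nonneg _)
      have h2 : ENNReal.ofReal (∫ u in E, ‖KJ f Y β (Real.log T) j u‖) ≤
          ENNReal.ofReal (2 * Cg * M) := by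
        rw [h1]
        refine le_trans (le_of_eq ?_) hmain
        exact lintegral_congr fun u => ofReal_norm _
      exact (ENNReal.ofReal_le_ofReal_iff (by positivity)).1 h2
    · rw [integral_undef hint]
      positivity
  refine hfin.trans ?_
  have hrp := rpow_bound k hk1 c W (volume.real E) δ θ hc1 hW0 hX0 hXW hδ0 hθ hδθ
  rw [← hM, ← hL] at hrp
  have hXδ : 0 ≤ volume.real E ^ δ := Real.rpow_nonneg hX0 _
  have hWδ : 0 ≤ W ^ (1 - δ) := Real.rpow_nonneg hW0.le _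
  have hcL : c ^ L = Cx ^ L * Real.log T ^ (Cx * L) := by
    rw [hc, mul_pow, Real.rpow_mul_natCast (by linarith)]
  have hCL : Real.log T ^ (Cx * L) ≤ Real.log T ^ C := by
    refine Real.rpow_le_rpow_of_exponent_le hl1 ?_
    rw [hC]
    have : 0 ≤ 2 * Cg * Cx ^ L := by positivity
    linarith
  have hC2 : 2 * Cg * Cx ^ L ≤ C := by
    rw [hC]
    have : 0 ≤ Cx * L := by positivity
    linarith
  have hlp : 0 ≤ Real.log T ^ (Cx * L) := Real.rpow_nonneg (by linarith) _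
  calc 2 * Cg * M ≤ 2 * Cg * (c ^ L * (volume.real E ^ δ * W ^ (1 - δ))) := by gcongr
    _ = (2 * Cg * Cx ^ L) * Real.log T ^ (Cx * L) * (volume.real E ^ δ * W ^ (1 - δ)) := by
        rw [hcL]; ring
    _ ≤ C * Real.log T ^ C * (volume.real E ^ δ * W ^ (1 - δ)) := by gcongr
    _ = C * Real.log T ^ C * volume.real E ^ δ * W ^ (1 - δ) := by ring

end Pool.Agent.H25.DL
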