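import Pool.Agent.H25.DL.Targets2

/-!
# Dilated zeros of `L`-functions: short intervals (targets)
-/

set_option autoImplicit false

open Complex MeasureTheory Set

namespace Pool.Agent.H25.DL

open Pool.Agent.H23.GLH

/-- (FU2) the average over an interval. -/
def T_FU2 : Prop :=
  ∀ (ι : Type) [Fintype ι] (f : ι → Fac) (Y : ℂ → ℂ) (d t₀ β : ℝ), 0 < d → 0 < β →
    Phase Y d t₀ → ∃ C T₀ : ℝ, 0 < C ∧ ∀ T : ℝ, T₀ ≤ T → ∀ (j : ι → ℕ) (a b : ℝ), T ≤ a → a ≤ b →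
      b ≤ 2 * T →
      ‖∫ u in a..b, KJ f Y β (Real.log T) j u‖ ≤ C * Real.sqrt T * ∏ l, (2 : ℝ) ^ ((j l : ℝ) / 2)

/-- (BA2) the average over the bad heights of an interval of length `W ≥ T^κ`. -/
def T_BA2 : Prop :=
  ∀ (ι : Type) [Fintype ι] (f : ι → Fac) (Y : ℂ → ℂ) (d t₀ β μ D κ : ℝ), 0 < β → Phase Y d t₀ →
    0 < D → 0 < μ → D / μ < κ → κ ≤ 1 → (∀ l, μ ≤ (f l).r) →
    ∃ δ C T₀ : ℝ, 0 < δ ∧ δ ≤ 1 ∧ 0 < C ∧ ∀ T : ℝ, T₀ ≤ T → ∀ j ∈ mains f μ D T,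
      ∀ a W : ℝ, T ≤ a → a + W ≤ 2 * T → T ^ κ ≤ W →
      ∀ E : Set ℝ, MeasurableSet E → E ⊆ Icc a (a + W) →
      ∫ u in E, ‖KJ f Y β (Real.log T) j u‖ ≤
        C * Real.log T ^ C * (volume.real E) ^ δ * W ^ (1 - δ)

/-- (CO2) the core for short intervals. -/
def T_CO2 : Prop :=
  ∀ (ι : Type) [Fintype ι] (f : ι → Fac) (Y : ℂ → ℂ) (d t₀ μ κ : ℝ), 0 < d → d < μ →
    (∀ l, μ ≤ (f l).r) → Phase Y d t₀ → 1 / 2 + d / (2 * μ) < κ → κ ≤ 1 →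
    ∃ β₁ : ℝ, 0 < β₁ ∧ ∀ β : ℝ, β₁ ≤ β → ∀ C : ℝ,
    ∃ A T₀ : ℝ, 0 < A ∧ ∀ T : ℝ, T₀ ≤ T → ∀ a W : ℝ, T ≤ a → a + W ≤ 2 * T → T ^ κ ≤ W →
      ∀ G : Set ℝ, MeasurableSet G → G ⊆ Icc a (a + W) →
      (∀ u ∈ G, Clean f Y β C T u) → W / Real.log T ^ A ≤ volume.real (Icc a (a + W) \ G)

/-- (FI2) the general theorem for short intervals. -/
def T_FI2 : Prop :=
  ∀ (F : Fam) (μ κ : ℝ), 0 < F.d → F.d < μ → (∀ i, μ ≤ (F.p i).r) → (∀ j, μ ≤ (F.q j).r) →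
    1 / 2 + F.d / (2 * μ) < κ → κ ≤ 1 →
    ∃ A T₀ : ℝ, 0 < A ∧ ∀ T W : ℝ, T₀ ≤ T → T ^ κ ≤ W → W ≤ T → ∃ Z : Finset ℂ,
      W / Real.log T ^ A ≤ Z.card ∧ ∀ z ∈ Z, T ≤ z.im ∧ z.im ≤ T + W ∧ F.Exc z

/-- (RE2) the theorem for Dirichlet `L`-functions. -/
def T_RE2 : Prop :=
  ∀ (k m : ℕ) (ψ : Fin k → PrimChar) (r τ : Fin k → ℝ) (χ : Fin m → PrimChar)
    (ρ σ : Fin m → ℝ) (μ κ : ℝ), 0 < μ → (∀ i, μ ≤ r i) → (∀ j, μ ≤ ρ j) →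
    0 < ∑ i, r i - ∑ j, ρ j → ∑ i, r i - ∑ j, ρ j < μ →
    1 / 2 + (∑ i, r i - ∑ j, ρ j) / (2 * μ) < κ → κ ≤ 1 →
    ∃ A T₀ : ℝ, 0 < A ∧ ∀ T W : ℝ, T₀ ≤ T → T ^ κ ≤ W → W ≤ T → ∃ Z : Finset ℂ,
      W / Real.log T ^ A ≤ Z.card ∧ ∀ z ∈ Z, T ≤ z.im ∧ z.im ≤ T + W ∧
        ∑ i, analyticOrderAt (ψ i).L (wl (r i) (τ i) z) <
          ∑ j, analyticOrderAt (χ j).L (wl (ρ j) (σ j) z)

/-- (AR2) the theorem for Artin `L`-functions. -/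
def T_AR2 : Prop :=
  ∀ (k m : ℕ) (R : Fin k → ArtinRep) (Λ : ∀ i, ArtinL (R i)) (r τ : Fin k → ℝ)
    (S : Fin m → ArtinRep) (M : ∀ j, ArtinL (S j)) (ρ σ : Fin m → ℝ) (μ κ : ℝ), 0 < μ →
    (∀ i, μ ≤ r i) → (∀ j, μ ≤ ρ j) →
    0 < ∑ i, r i * (R i).dim - ∑ j, ρ j * (S j).dim →
    ∑ i, r i * (R i).dim - ∑ j, ρ j * (S j).dim < μ →
    1 / 2 + (∑ i, r i * (R i).dim - ∑ j, ρ j * (S j).dim) / (2 * μ) < κ → κ ≤ 1 →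
    ∃ A T₀ : ℝ, 0 < A ∧ ∀ T W : ℝ, T₀ ≤ T → T ^ κ ≤ W → W ≤ T → ∃ Z : Finset ℂ,
      W / Real.log T ^ A ≤ Z.card ∧ ∀ z ∈ Z, T ≤ z.im ∧ z.im ≤ T + W ∧
        ∑ i, meromorphicOrderAt (Λ i).L (wl (r i) (τ i) z) <
          ∑ j, meromorphicOrderAt (M j).L (wl (ρ j) (σ j) z)

end Pool.Agent.H25.DL
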