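import Pool.Agent.H48.DL.AR
import Pool.Agent.H25.DL.Targets3

/-!
Module AR2: the theorem for Artin `L`-functions in short intervals (adapted from helper48's
module AR).
-/

set_option autoImplicit false

open Complex Filter Topology

namespace Pool.Agent.H25.DL

open Pool.Agent.H48.DL

theorem ar2 (hFI : T_FI2) (hAF : T_AF) : T_AR2 := by
  intro k m R Λ r τ S M ρ σ μ κ hμ hr hρ hd0 hdμ hκ hκ1
  choose L hLn hLnum hLden using hAF
  have hE2 : ∀ (R : ArtinRep) (Λ : ArtinL R), Λ.E₂ (2 + I) ≠ 0 := fun R Λ =>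
    Λ.E₂_ne _ (by simp) (by simp)
  have hE1 : ∀ (R : ArtinRep) (Λ : ArtinL R), Λ.E₁ (2 + I) ≠ 0 := fun R Λ => by
    have h1 := (L R Λ).series (2 + I) (by simp) (by simp)
    rw [hLnum, hLden] at h1
    rw [h1]
    refine mul_ne_zero (hE2 R Λ) (Finset.prod_ne_zero_iff.2 fun j _ => ?_)
    exact series_ne _ ((L R Λ).h_zero j) ((L R Λ).h_one j) ((L R Λ).h_mul j) ((L R Λ).h_le j)
      (by simp)
  let F : Fam :=
    { I := Fin k
      J := Fin m
      fI := inferInstance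
      fJ := inferInstance
      p := fun i => ⟨L (R i) (Λ i), r i, τ i, hμ.trans_le (hr i)⟩
      q := fun j => ⟨L (S j) (M j), ρ j, σ j, hμ.trans_le (hρ j)⟩ }
  have hFd : F.d = ∑ i, r i * (R i).dim - ∑ j, ρ j * (S j).dim := by
    change ∑ i, r i * ((L (R i) (Λ i)).n : ℝ) - ∑ j, ρ j * ((L (S j) (M j)).n : ℝ) = _
    simp only [hLn]
  obtain ⟨A, T₀, hA, h⟩ := hFI F μ κ (by rw [hFd]; exact hd0) (by rw [hFd]; exact hdμ) hr hρ
    (by rw [hFd]; exact hκ) hκ1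
  obtain ⟨T₁, hT₁⟩ := exists_height r τ μ hμ hr
  obtain ⟨T₂, hT₂⟩ := exists_height ρ σ μ hμ hρ
  refine ⟨A, max (max T₀ 0) (max T₁ T₂), hA, fun T W hT hW hWT => ?_⟩
  have hT0 : 0 ≤ T := ((le_max_right _ _).trans (le_max_left _ _)).trans hT
  obtain ⟨Z, hZ, hz⟩ := h T W (((le_max_left _ _).trans (le_max_left _ _)).trans hT) hW hWT
  refine ⟨Z, hZ, fun z hzZ => ?_⟩
  obtain ⟨h1', h2, h3⟩ := hz z hzZ
  have h1 : T / 4 ≤ z.im := by linarith
  refine ⟨h1', h2, ?_⟩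
  have hp : ∀ i, 0 < (wl (r i) (τ i) z).im :=
    hT₁ T (((le_max_left _ _).trans (le_max_right _ _)).trans hT) z h1
  have hq : ∀ j, 0 < (wl (ρ j) (σ j) z).im :=
    hT₂ T (((le_max_right _ _).trans (le_max_right _ _)).trans hT) z h1
  have hN := order_N F z hp hq
  have hM := order_M F z hp hq
  have hcast1 : ∀ (R : ArtinRep) (Λ : ArtinL R) (w : ℂ),
      analyticOrderAt Λ.E₁ w = (analyticOrderNatAt Λ.E₁ w : ℕ∞) := fun R Λ w =>
    (Nat.cast_analyticOrderNatAt (order_ne_top Λ.diff₁ (hE1 R Λ) w)).symm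
  have hcast2 : ∀ (R : ArtinRep) (Λ : ArtinL R) (w : ℂ),
      analyticOrderAt Λ.E₂ w = (analyticOrderNatAt Λ.E₂ w : ℕ∞) := fun R Λ w =>
    (Nat.cast_analyticOrderNatAt (order_ne_top Λ.diff₂ (hE2 R Λ) w)).symm
  have hN' : analyticOrderAt F.N z =
      ((∑ i, analyticOrderNatAt (Λ i).E₁ (wl (r i) (τ i) z) +
        ∑ j, analyticOrderNatAt (M j).E₂ (wl (ρ j) (σ j) z) : ℕ) : ℕ∞) := by
    rw [hN]
    change (∑ i, analyticOrderAt (L (R i) (Λ i)).num (wl (r i) (τ i) z)) +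
      ∑ j, analyticOrderAt (L (S j) (M j)).den (wl (ρ j) (σ j) z) = _
    simp only [hLnum, hLden, hcast1, hcast2]
    push_cast
    rfl
  have hM' : analyticOrderAt F.M z =
      ((∑ i, analyticOrderNatAt (Λ i).E₂ (wl (r i) (τ i) z) +
        ∑ j, analyticOrderNatAt (M j).E₁ (wl (ρ j) (σ j) z) : ℕ) : ℕ∞) := by
    rw [hM]
    change (∑ i, analyticOrderAt (L (R i) (Λ i)).den (wl (r i) (τ i) z)) +
      ∑ j, analyticOrderAt (L (S j) (M j)).num (wl (ρ j) (σ j) z) = _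
    simp only [hLnum, hLden, hcast1, hcast2]
    push_cast
    rfl
  have h4 : analyticOrderAt F.N z < analyticOrderAt F.M z := h3
  rw [hN', hM', ENat.natCast_lt_natCast] at h4
  have e1 : ∑ i, meromorphicOrderAt (Λ i).L (wl (r i) (τ i) z) =
      ((∑ i, ((analyticOrderNatAt (Λ i).E₁ (wl (r i) (τ i) z) : ℤ) -
        (analyticOrderNatAt (Λ i).E₂ (wl (r i) (τ i) z) : ℤ)) : ℤ) : WithTop ℤ) := by
    rw [← sum_coe]
    exact Finset.sum_congr rfl fun i _ => mero (Λ i) (hE1 _ _) (hE2 _ _) _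
  have e2 : ∑ j, meromorphicOrderAt (M j).L (wl (ρ j) (σ j) z) =
      ((∑ j, ((analyticOrderNatAt (M j).E₁ (wl (ρ j) (σ j) z) : ℤ) -
        (analyticOrderNatAt (M j).E₂ (wl (ρ j) (σ j) z) : ℤ)) : ℤ) : WithTop ℤ) := by
    rw [← sum_coe]
    exact Finset.sum_congr rfl fun j _ => mero (M j) (hE1 _ _) (hE2 _ _) _
  rw [e1, e2, WithTop.coe_lt_coe, Finset.sum_sub_distrib, Finset.sum_sub_distrib]
  have h5 : (∑ i, (analyticOrderNatAt (Λ i).E₁ (wl (r i) (τ i) z) : ℤ) +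
        ∑ j, (analyticOrderNatAt (M j).E₂ (wl (ρ j) (σ j) z) : ℤ)) <
      (∑ i, (analyticOrderNatAt (Λ i).E₂ (wl (r i) (τ i) z) : ℤ) +
        ∑ j, (analyticOrderNatAt (M j).E₁ (wl (ρ j) (σ j) z) : ℤ)) := by
    exact_mod_cast h4
  linarith

end Pool.Agent.H25.DL
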