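import Pool.Agent.H25.DL.Targets
import Pool.Agent.H15.LI.QU
import Pool.Agent.H94.LI.GR

/-!
# Dilated zeros: module CL (clean heights)
-/

set_option autoImplicit false

open Complex MeasureTheory Set Filter Topology Metric

namespace Pool.Agent.H25.DL

variable {ι : Type} [Fintype ι]

lemma conj_wl (r τ : ℝ) (s : ℂ) :
    (starRingEnd ℂ) (wl r τ s) = wl r (-τ) ((starRingEnd ℂ) s) := by
  unfold wl
  simp only [map_add, map_mul, map_sub, map_div₀, map_one, map_ofNat, conj_ofReal, conj_I]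
  push_cast
  ring

lemma conj_D (f : Fac) (s : ℂ) : (starRingEnd ℂ) (f.D s) = f.bar.D ((starRingEnd ℂ) s) := by
  unfold Fac.D
  have hc : (starRingEnd ℂ) (∑' n : ℕ, f.c n * (n : ℂ) ^ (-(wl f.r f.τ s))) =
      ∑' n : ℕ, (starRingEnd ℂ) (f.c n * (n : ℂ) ^ (-(wl f.r f.τ s))) :=
    Complex.conjCLE.map_tsum
  rw [hc]
  refine tsum_congr fun n => ?_
  rw [map_mul]
  congr 1
  have h1 : (starRingEnd ℂ) (-(wl f.r f.τ s)) = -(wl f.bar.r f.bar.τ ((starRingEnd ℂ) s)) := by
    rw [map_neg, conj_wl]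
    rfl
  rw [← h1, cpow_conj _ _ (by rw [Complex.natCast_arg]; exact Real.pi_pos.ne), Complex.conj_natCast]

lemma conj_Pr (f : ι → Fac) (s : ℂ) :
    (starRingEnd ℂ) (Pr f s) = Pr (fun l => (f l).bar) ((starRingEnd ℂ) s) := by
  unfold Pr
  rw [map_prod]
  exact Finset.prod_congr rfl fun l _ => conj_D _ _

/-- open rectangle -/
def rect (a R u : ℝ) : Set ℂ := {s | |s.re - 1 / 2| < a ∧ |s.im - u| < R}

lemma isOpen_rect (a R u : ℝ) : IsOpen (rect a R u) := by
  have h1 : Continuous fun s : ℂ => |s.re - 1 / 2| := by fun_prop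
  have h2 : Continuous fun s : ℂ => |s.im - u| := by fun_prop
  exact (isOpen_lt h1 continuous_const).inter (isOpen_lt h2 continuous_const)

lemma convex_rect (a R u : ℝ) : Convex ℝ (rect a R u) := by
  have h1 : Convex ℝ {s : ℂ | |s.re - 1 / 2| < a} := by
    have : {s : ℂ | |s.re - 1 / 2| < a} = Complex.reLm ⁻¹' (Ioo (1 / 2 - a) (1 / 2 + a)) := by
      ext s
      simp only [mem_ofPred_eq, mem_preimage, mem_Ioo, abs_lt, Complex.reLm_coe]
      constructor <;> rintro ⟨h1, h2⟩ <;> constructor <;> linarith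
    rw [this]
    exact (convex_Ioo _ _).linear_preimage _
  have h2 : Convex ℝ {s : ℂ | |s.im - u| < R} := by
    have : {s : ℂ | |s.im - u| < R} = Complex.imLm ⁻¹' (Ioo (u - R) (u + R)) := by
      ext s
      simp only [mem_ofPred_eq, mem_preimage, mem_Ioo, abs_lt, Complex.imLm_coe]
      constructor <;> rintro ⟨h1, h2⟩ <;> constructor <;> linarith
    rw [this]
    exact (convex_Ioo _ _).linear_preimage _
  exact h1.inter h2

lemma closure_rect_subset (a R u : ℝ) :
    closure (rect a R u) ⊆ {s | |s.re - 1 / 2| ≤ a ∧ |s.im - u| ≤ R} := by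
  refine closure_minimal (fun s hs => ⟨hs.1.le, hs.2.le⟩) ?_
  have h1 : Continuous fun s : ℂ => |s.re - 1 / 2| := by fun_prop
  have h2 : Continuous fun s : ℂ => |s.im - u| := by fun_prop
  exact (isClosed_le h1 continuous_const).inter (isClosed_le h2 continuous_const)

lemma bounded_rect (a R u : ℝ) : Bornology.IsBounded (rect a R u) := by
  refine (isBounded_iff_forall_norm_le).2 ⟨|a| + 1 / 2 + (|R| + |u|), fun s hs => ?_⟩
  have h1 := Complex.norm_le_abs_re_add_abs_im s
  have h2 : |s.re| ≤ |a| + 1 / 2 := by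
    have h3 := abs_lt.1 hs.1
    have h4 := le_abs_self a
    rw [abs_le]
    constructor <;> linarith
  have h3 : |s.im| ≤ |R| + |u| := by
    have h3 := abs_lt.1 hs.2
    have h4 := le_abs_self R
    have h5 := abs_le.1 (le_refl |u|)
    rw [abs_le]
    constructor <;> linarith
  linarith

lemma reflect_mem_rect {a R u : ℝ} {s : ℂ} (hs : s ∈ rect a R u) :
    1 - (starRingEnd ℂ) s ∈ rect a R u := by
  refine ⟨?_, ?_⟩
  · have : (1 - (starRingEnd ℂ) s).re - 1 / 2 = -(s.re - 1 / 2) := by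
      simp
      ring
    rw [this, abs_neg]
    exact hs.1
  · have : (1 - (starRingEnd ℂ) s).im = s.im := by simp
    rw [this]
    exact hs.2

/-- (CL) -/
theorem cl (hEU : T_EU) (hLB : T_LB) (hFQ : T_FQ) (hDG : T_DG) (hPH : T_PH) : T_CL := by
  intro F
  obtain ⟨β₁, tE, hβ₁, hEU⟩ := hEU F
  obtain ⟨b₀, c, tL, hc, hLB⟩ := hLB F
  obtain ⟨tF, hFQ⟩ := hFQ F
  obtain ⟨tD, htD1, hdiff, hgrow⟩ := hDG F
  obtain ⟨tP, hP⟩ := hPH F
  refine ⟨β₁, hβ₁, fun β hβ => ?_⟩
  have hβ0 : 0 < β := hβ₁.trans_le hβ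
  obtain ⟨b, hb⟩ : ∃ b : ℝ, b = max b₀ 1 := ⟨_, rfl⟩
  have hb0 : b₀ ≤ b := by rw [hb]; exact le_max_left _ _
  have hb1 : 1 ≤ b := by rw [hb]; exact le_max_right _ _
  obtain ⟨R₁, hR₁⟩ : ∃ R₁ : ℝ, R₁ = b + β + 2 := ⟨_, rfl⟩
  obtain ⟨R₃, hR₃⟩ : ∃ R₃ : ℝ, R₃ = R₁ + 2 := ⟨_, rfl⟩
  obtain ⟨Cg, hCg, hgr⟩ := H94.LI.growth R₁ (R₁ + 1) R₃ (by linarith) (by linarith) (by linarith)
  obtain ⟨CD, hCD, hND⟩ := hgrow (b + R₃)
  obtain ⟨CY, hCY, hY⟩ := hP.growth (1 / 2 + β)
  obtain ⟨k, hk⟩ : ∃ k : ℝ, k = 1 / (4 * c) := ⟨_, rfl⟩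
  have hk0 : 0 < k := by rw [hk]; positivity
  -- exponents
  obtain ⟨e₁, he₁⟩ : ∃ e₁ : ℝ, e₁ = CD + 1 := ⟨_, rfl⟩
  obtain ⟨e₂, he₂⟩ : ∃ e₂ : ℝ, e₂ = |F.d| * β + 1 := ⟨_, rfl⟩
  have he₂0 : 0 ≤ e₂ := by rw [he₂]; positivity
  have he₁1 : 1 ≤ e₁ := by rw [he₁]; linarith
  -- large T
  have hlog := Real.tendsto_log_atTop
  have hsmall : ∀ K : ℝ, ∀ᶠ T : ℝ in atTop, K + 2 * Real.log T ≤ T / 2 := by
    intro K
    have h1 : (fun T : ℝ => K + 2 * Real.log T) =o[atTop] fun T : ℝ => T := by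
      refine Asymptotics.IsLittleO.add ?_ (Real.isLittleO_log_id_atTop.const_mul_left 2)
      exact Asymptotics.isLittleO_const_left.2 (Or.inr (tendsto_norm_atTop_atTop))
    have h2 := h1.bound (show (0 : ℝ) < 1 / 2 by norm_num)
    filter_upwards [h2, eventually_ge_atTop (0 : ℝ)] with T hT hT0
    rw [Real.norm_eq_abs, Real.norm_eq_abs, abs_of_nonneg hT0] at hT
    have := (le_abs_self _).trans hT
    linarith
  obtain ⟨T₀, hT₀⟩ := eventually_atTop.1 ((hlog.eventually_gt_atTop (2 * R₃)).and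
    ((hlog.eventually_ge_atTop 1).and ((hsmall 0).and
    ((eventually_ge_atTop (2 * tE)).and ((eventually_ge_atTop (2 * tL)).and
    ((eventually_ge_atTop (2 * tF)).and ((eventually_ge_atTop (2 * tD)).and
    ((eventually_ge_atTop (2 * tP)).and ((eventually_ge_atTop (2 : ℝ)).and
    ((eventually_ge_atTop (k * CD * 3 ^ CD)).and
      (eventually_ge_atTop (CY * 3 ^ (|F.d| * β)))))))))))))
  refine ⟨e₁ * Cg + e₂, T₀, fun T hT u hu hexc => ?_⟩
  obtain ⟨hlR, hl1, hsm, htE, htL, htF, htD, htP, hT2, hTk, hTY⟩ := hT₀ T hT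
  obtain ⟨ℓ, hℓ⟩ : ∃ ℓ : ℝ, ℓ = Real.log T := ⟨_, rfl⟩
  rw [← hℓ] at hlR hl1 hsm hexc
  have hT0 : 0 < T := by linarith
  have hT1 : 1 ≤ T := by linarith
  have hu1 := hu.1
  have hu2 := hu.2
  obtain ⟨V, hV⟩ : ∃ V : Set ℂ, V = rect (R₃ + b + 3) (2 * ℓ) u := ⟨_, rfl⟩
  obtain ⟨U, hU⟩ : ∃ U : Set ℂ, U = rect (R₃ + b + 2) (3 / 2 * ℓ) u := ⟨_, rfl⟩
  have hUo : IsOpen U := by rw [hU]; exact isOpen_rect _ _ _
  have hVo : IsOpen V := by rw [hV]; exact isOpen_rect _ _ _
  have hUc : IsPreconnected U := by rw [hU]; exact (convex_rect _ _ _).isPreconnected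
  have hVc : IsPreconnected V := by rw [hV]; exact (convex_rect _ _ _).isPreconnected
  have hUV : closure U ⊆ V := by
    rw [hU, hV]
    refine (closure_rect_subset _ _ _).trans fun s hs => ⟨?_, ?_⟩
    · have := hs.1; linarith
    · have := hs.2; linarith
  have hVim : ∀ s ∈ V, T / 2 ≤ s.im ∧ s.im ≤ 3 * T := by
    intro s hs
    rw [hV] at hs
    have h1 := abs_lt.1 hs.2
    constructor <;> linarith
  have hUsub : U ⊆ V := subset_closure.trans hUV
  have hMd : DifferentiableOn ℂ F.M V := fun s hs =>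
    ((hdiff s (by have := (hVim s hs).1; linarith)).2).differentiableWithinAt
  have hNd : DifferentiableOn ℂ F.N V := fun s hs =>
    ((hdiff s (by have := (hVim s hs).1; linarith)).1).differentiableWithinAt
  have hpt : ∀ t : ℝ, |t - u| ≤ ℓ → ((b : ℂ) + t * I) ∈ V := by
    intro t ht
    rw [hV]
    refine ⟨?_, ?_⟩
    · simp only [add_re, ofReal_re, mul_re, I_re, mul_zero, ofReal_im, I_im, mul_one, sub_self,
        add_zero]
      rw [abs_of_nonneg (by linarith)]
      linarith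
    · simp only [add_im, ofReal_im, mul_im, ofReal_re, I_im, mul_one, I_re, mul_zero, add_zero,
        zero_add]
      linarith
  have hMp : ∀ t : ℝ, |t - u| ≤ ℓ → c ≤ ‖F.M (b + t * I)‖ := by
    intro t ht
    refine hLB b hb0 t ?_
    have := (abs_le.1 ht).1
    linarith
  have hMp0 : ∃ p ∈ V, F.M p ≠ 0 := by
    refine ⟨b + u * I, hpt u (by simp; linarith), ?_⟩
    intro h0
    have := hMp u (by simp; linarith)
    rw [h0, norm_zero] at this
    linarith
  obtain ⟨G, hGd, hMG⟩ := H15.LI.qu U V F.M F.N hUo hVo hVc (by rw [hU]; exact bounded_rect _ _ _)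
    hUV hMd hNd hMp0 (fun w hw _ => by
      by_contra hcon
      push Not at hcon
      refine hexc w hcon ?_
      rw [hU] at hw
      have := (closure_rect_subset _ _ _ hw).2
      linarith)
  -- balls
  have hball : ∀ t : ℝ, |t - u| ≤ ℓ → closedBall ((b : ℂ) + t * I) R₃ ⊆ U := by
    intro t ht s hs
    rw [mem_closedBall, dist_eq_norm] at hs
    have h1 := (abs_re_le_norm _).trans hs
    have h2 := (abs_im_le_norm _).trans hs
    simp only [sub_re, add_re, ofReal_re, mul_re, I_re, mul_zero, ofReal_im, I_im, mul_one,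
      sub_self, add_zero] at h1
    simp only [sub_im, add_im, ofReal_im, mul_im, ofReal_re, I_im, mul_one, I_re, mul_zero,
      add_zero, zero_add] at h2
    rw [hU]
    have h1' := abs_le.1 h1
    have h2' := abs_le.1 h2
    have h3' := abs_le.1 ht
    refine ⟨?_, ?_⟩
    · rw [abs_lt]; constructor <;> linarith
    · rw [abs_lt]; constructor <;> linarith
  have hMbd : ∀ s : ℂ, |s.re| ≤ b + R₃ → s ∈ V → k * ‖F.N s‖ ≤ T ^ e₁ ∧ k * ‖F.M s‖ ≤ T ^ e₁ := by
    intro s hs hsV
    obtain ⟨h1, h2⟩ := hVim s hsV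
    obtain ⟨h3, h4⟩ := hND s hs (by linarith)
    have h5 : k * (CD * s.im ^ CD) ≤ T ^ e₁ := by
      have h6 : s.im ^ CD ≤ (3 * T) ^ CD := Real.rpow_le_rpow (by linarith) h2 hCD.le
      calc k * (CD * s.im ^ CD) ≤ k * (CD * (3 * T) ^ CD) := by gcongr
        _ = (k * CD * 3 ^ CD) * T ^ CD := by
            rw [Real.mul_rpow (by norm_num) hT0.le]; ring
        _ ≤ T * T ^ CD := by gcongr
        _ = T ^ e₁ := by rw [he₁, Real.rpow_add hT0, Real.rpow_one]; ring
    exact ⟨(mul_le_mul_of_nonneg_left h3 hk0.le).trans h5,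
      (mul_le_mul_of_nonneg_left h4 hk0.le).trans h5⟩
  have hMT : (2 : ℝ) ≤ T ^ e₁ := by
    calc (2 : ℝ) ≤ T := hT2
      _ = T ^ (1 : ℝ) := (Real.rpow_one T).symm
      _ ≤ T ^ e₁ := Real.rpow_le_rpow_of_exponent_le hT1 he₁1
  have hGball : ∀ t : ℝ, |t - u| ≤ ℓ → ∀ s ∈ closedBall ((b : ℂ) + t * I) R₁,
      ‖G s‖ ≤ T ^ (e₁ * Cg) := by
    intro t ht s hs
    have h1 := hgr ((b : ℂ) + t * I) (T ^ e₁) U (fun s => (k : ℂ) * F.M s)
      (fun s => (k : ℂ) * F.N s) G hMT hUo hUc (hball t ht) ((hMd.mono hUsub).const_mul _)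
      ((hNd.mono hUsub).const_mul _) hGd (fun s hs => by rw [mul_assoc, hMG s hs])
      (fun s hs => by
        have h2 := hball t ht hs
        rw [mem_closedBall, dist_eq_norm] at hs
        have h3 := (abs_re_le_norm _).trans hs
        simp only [sub_re, add_re, ofReal_re, mul_re, I_re, mul_zero, ofReal_im, I_im, mul_one,
          sub_self, add_zero] at h3
        have h4 : |s.re| ≤ b + R₃ := by
          rw [abs_le] at h3 ⊢
          constructor <;> linarith [h3.1, h3.2]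
        obtain ⟨h5, h6⟩ := hMbd s h4 (hUsub h2)
        simp only [norm_mul, Complex.norm_real, Real.norm_eq_abs, abs_of_pos hk0]
        exact ⟨h6, h5⟩)
      (by
        simp only [norm_mul, Complex.norm_real, Real.norm_eq_abs, abs_of_pos hk0]
        have h2 := hMp t ht
        calc (1 / 4 : ℝ) = k * c := by rw [hk]; field_simp
          _ ≤ _ := by gcongr) s hs
    rwa [← Real.rpow_mul hT0.le] at h1
  have hbox : ∀ s ∈ box β ℓ u, s ∈ U ∧ ‖G s‖ ≤ T ^ (e₁ * Cg) := by
    intro s hs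
    have h1 : s ∈ closedBall ((b : ℂ) + s.im * I) R₁ := by
      rw [mem_closedBall, dist_eq_norm]
      have e : s - (b + s.im * I) = ((s.re - b : ℝ) : ℂ) := by
        apply Complex.ext <;> simp
      rw [e, Complex.norm_real, Real.norm_eq_abs]
      have h2 := abs_le.1 hs.1
      rw [abs_le]
      constructor <;> linarith
    have h2 := hGball s.im hs.2 s h1
    refine ⟨hball s.im hs.2 ?_, h2⟩
    exact closedBall_subset_closedBall (by linarith) h1
  -- the functional equation of G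
  have hMa : AnalyticOnNhd ℂ F.M V := fun z hz => hMd.analyticAt (hVo.mem_nhds hz)
  have hMne : ∀ s ∈ V, ∀ᶠ z in 𝓝[≠] s, F.M z ≠ 0 := by
    intro s hs
    by_contra hcon
    have h1 : ∃ᶠ z in 𝓝[≠] s, F.M z = 0 := by
      rw [Filter.not_eventually] at hcon
      exact hcon.mono fun z hz => by simpa using hz
    have h2 := hMa.eqOn_zero_of_preconnected_of_frequently_eq_zero hVc hs h1
    obtain ⟨p, hp, hp0⟩ := hMp0
    exact hp0 (h2 hp)
  have hrefl : Continuous fun s : ℂ => 1 - (starRingEnd ℂ) s :=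
    continuous_const.sub Complex.continuous_conj
  have hrefl2 : ∀ s : ℂ, Tendsto (fun z : ℂ => 1 - (starRingEnd ℂ) z) (𝓝[≠] s)
      (𝓝[≠] (1 - (starRingEnd ℂ) s)) := by
    intro s
    refine tendsto_nhdsWithin_iff.2 ⟨(hrefl.tendsto s).mono_left nhdsWithin_le_nhds, ?_⟩
    filter_upwards [self_mem_nhdsWithin] with z hz
    intro h0
    apply hz
    have h1 : (starRingEnd ℂ) z = (starRingEnd ℂ) s := by
      have h0' : (1 : ℂ) - (starRingEnd ℂ) z = 1 - (starRingEnd ℂ) s := h0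
      linear_combination -h0'
    exact (starRingEnd ℂ).injective h1
  have hGY : ∀ s ∈ U, G s * F.Y s = (starRingEnd ℂ) (G (1 - (starRingEnd ℂ) s)) := by
    intro s hs
    have hs' : 1 - (starRingEnd ℂ) s ∈ U := by rw [hU] at hs ⊢; exact reflect_mem_rect hs
    have hev : ∀ᶠ z in 𝓝[≠] s, G z * F.Y z = (starRingEnd ℂ) (G (1 - (starRingEnd ℂ) z)) := by
      filter_upwards [hMne s (hUsub hs), (hrefl2 s).eventually (hMne _ (hUsub hs')),
        nhdsWithin_le_nhds (hUo.mem_nhds hs)] with z hz1 hz2 hz3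
      have hz3' : 1 - (starRingEnd ℂ) z ∈ U := by rw [hU] at hz3 ⊢; exact reflect_mem_rect hz3
      have h1 := hFQ z (by have := (hVim z (hUsub hz3)).1; linarith)
      rw [← hMG z hz3, ← hMG _ hz3', map_mul] at h1
      have h2 : (starRingEnd ℂ) (F.M (1 - (starRingEnd ℂ) z)) ≠ 0 := by
        rw [Ne, map_eq_zero]
        exact hz2
      have h3 : F.M z * (starRingEnd ℂ) (F.M (1 - (starRingEnd ℂ) z)) *
          (G z * F.Y z - (starRingEnd ℂ) (G (1 - (starRingEnd ℂ) z))) = 0 := by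
        linear_combination h1
      rcases mul_eq_zero.1 h3 with h4 | h4
      · exact absurd h4 (mul_ne_zero hz1 h2)
      · linear_combination h4
    have hGc : ContinuousAt G s := (hGd.differentiableAt (hUo.mem_nhds hs)).continuousAt
    have hGc' : ContinuousAt G (1 - (starRingEnd ℂ) s) :=
      (hGd.differentiableAt (hUo.mem_nhds hs')).continuousAt
    have hYc : ContinuousAt F.Y s :=
      (hP.diff s (by have := (hVim s (hUsub hs)).1; linarith)).continuousAt
    have hl : Tendsto (fun z => G z * F.Y z) (𝓝[≠] s) (𝓝 (G s * F.Y s)) :=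
      ((hGc.mul hYc).tendsto).mono_left nhdsWithin_le_nhds
    have hr : Tendsto (fun z => (starRingEnd ℂ) (G (1 - (starRingEnd ℂ) z))) (𝓝[≠] s)
        (𝓝 ((starRingEnd ℂ) (G (1 - (starRingEnd ℂ) s)))) := by
      have h1 : ContinuousAt (fun z => G (1 - (starRingEnd ℂ) z)) s :=
        ContinuousAt.comp (f := fun z => 1 - (starRingEnd ℂ) z) (g := G) hGc' hrefl.continuousAt
      exact ((Complex.continuous_conj.continuousAt.comp h1).tendsto).mono_left nhdsWithin_le_nhds
    exact tendsto_nhds_unique (hl.congr' hev) hr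
  refine ⟨fun s => G s * F.Y s, fun s hs => ?_, fun t ht => ?_, fun t ht => ?_⟩
  · rw [← hℓ] at hs
    obtain ⟨hsU, hGs⟩ := hbox s hs
    have him := hVim s (hUsub hsU)
    refine ⟨(hGd.differentiableAt (hUo.mem_nhds hsU)).mul (hP.diff s (by linarith [him.1])), ?_⟩
    have hTe : T ^ (e₁ * Cg + e₂) = T ^ (e₁ * Cg) * T ^ e₂ := Real.rpow_add hT0 _ _
    have hp1 := Real.rpow_pos_of_pos hT0 (e₁ * Cg)
    rcases le_total (1 / 2) s.re with hre | hre
    · have h1 : ‖F.Y s‖ ≤ T ^ e₂ := by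
        have h2 := hY s.re s.im hre (by have := (abs_le.1 hs.1).2; linarith) (by linarith [him.1])
        rw [Complex.re_add_im] at h2
        refine h2.trans ?_
        have h3 : s.im ^ (F.d * (s.re - 1 / 2)) ≤ (3 * T) ^ (|F.d| * β) := by
          have h4 : F.d * (s.re - 1 / 2) ≤ |F.d| * β := by
            have h5 := (abs_le.1 hs.1).2
            have h6 := le_abs_self F.d
            have h7 := abs_nonneg F.d
            nlinarith
          calc s.im ^ (F.d * (s.re - 1 / 2)) ≤ s.im ^ (|F.d| * β) :=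
                Real.rpow_le_rpow_of_exponent_le (by linarith [him.1]) h4
            _ ≤ (3 * T) ^ (|F.d| * β) := Real.rpow_le_rpow (by linarith [him.1]) him.2 (by positivity)
        calc CY * s.im ^ (F.d * (s.re - 1 / 2)) ≤ CY * (3 * T) ^ (|F.d| * β) := by gcongr
          _ = (CY * 3 ^ (|F.d| * β)) * T ^ (|F.d| * β) := by
              rw [Real.mul_rpow (by norm_num) hT0.le]; ring
          _ ≤ T * T ^ (|F.d| * β) := by gcongr
          _ = T ^ e₂ := by rw [he₂, Real.rpow_add hT0, Real.rpow_one]; ring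
      rw [norm_mul, hTe]
      gcongr
    · simp only
      rw [hGY s hsU, RCLike.norm_conj, hTe]
      have hs' : 1 - (starRingEnd ℂ) s ∈ box β ℓ u := by
        refine ⟨?_, ?_⟩
        · have : (1 - (starRingEnd ℂ) s).re - 1 / 2 = -(s.re - 1 / 2) := by simp; ring
          rw [this, abs_neg]
          exact hs.1
        · have : (1 - (starRingEnd ℂ) s).im = s.im := by simp
          rw [this]
          exact hs.2
      refine (hbox _ hs').2.trans ?_
      have h1 : (1 : ℝ) ≤ T ^ e₂ := Real.one_le_rpow hT1 he₂0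
      nlinarith
  · rw [← hℓ] at ht
    have hin : (1 / 2 + β + t * I : ℂ) ∈ box β ℓ u := by
      refine ⟨?_, ?_⟩
      · have : (1 / 2 + β + t * I : ℂ).re - 1 / 2 = β := by simp
        rw [this, abs_of_pos hβ0]
      · have : (1 / 2 + β + t * I : ℂ).im = t := by simp
        rw [this]
        exact ht
    obtain ⟨hsU, _⟩ := hbox _ hin
    obtain ⟨h1, h2⟩ := hEU β hβ t (by have := (abs_le.1 ht).1; linarith)
    simp only
    congr 1
    have h3 := hMG _ hsU
    rw [h2] at h3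
    exact mul_left_cancel₀ h1 h3
  · rw [← hℓ] at ht
    have hin : (1 / 2 + β + t * I : ℂ) ∈ box β ℓ u := by
      refine ⟨?_, ?_⟩
      · have : (1 / 2 + β + t * I : ℂ).re - 1 / 2 = β := by simp
        rw [this, abs_of_pos hβ0]
      · have : (1 / 2 + β + t * I : ℂ).im = t := by simp
        rw [this]
        exact ht
    have hin2 : (1 / 2 - β + t * I : ℂ) ∈ box β ℓ u := by
      refine ⟨?_, ?_⟩
      · have : (1 / 2 - β + t * I : ℂ).re - 1 / 2 = -β := by simp
        rw [this, abs_neg, abs_of_pos hβ0]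
      · have : (1 / 2 - β + t * I : ℂ).im = t := by simp
        rw [this]
        exact ht
    obtain ⟨hsU, _⟩ := hbox _ hin
    obtain ⟨hsU2, _⟩ := hbox _ hin2
    obtain ⟨h1, h2⟩ := hEU β hβ t (by have := (abs_le.1 ht).1; linarith)
    have h3 := hMG _ hsU
    rw [h2] at h3
    have h4 := mul_left_cancel₀ h1 h3
    simp only
    rw [hGY _ hsU2]
    have e1 : 1 - (starRingEnd ℂ) (1 / 2 - β + t * I : ℂ) = 1 / 2 + β + t * I := by
      simp only [map_add, map_mul, map_sub, map_div₀, map_one, map_ofNat, conj_ofReal, conj_I]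
      ring
    have e2 : (starRingEnd ℂ) (1 / 2 + β + t * I : ℂ) = 1 / 2 + β - t * I := by
      simp only [map_add, map_mul, map_div₀, map_one, map_ofNat, conj_ofReal, conj_I]
      ring
    rw [e1, h4, conj_Pr, e2]

end Pool.Agent.H25.DL
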