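import Pool.Agent.H25.DL.Targets3

/-!
# Dilated zeros: module FI2 (the general theorem for short intervals)
-/

set_option autoImplicit false

open Complex MeasureTheory Set Filter Topology

namespace Pool.Agent.H25.DL

lemma isLittleO_log_rpow {κ : ℝ} (hκ : 0 < κ) (c : ℝ) :
    ∀ᶠ T : ℝ in atTop, c * Real.log T ≤ T ^ κ := by
  have h1 := ((isLittleO_log_rpow_atTop hκ).const_mul_left c).bound zero_lt_one
  filter_upwards [h1, eventually_ge_atTop (0 : ℝ)] with T hT hT0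
  rw [one_mul, Real.norm_eq_abs, Real.norm_eq_abs, abs_of_nonneg (Real.rpow_nonneg hT0 _)] at hT
  exact (le_abs_self _).trans hT

/-- (FI2) -/
theorem fi2 (hCO : T_CO2) (hPH : T_PH) (hCL : T_CL) : T_FI2 := by
  intro F μ κ hd hdμ hI hJ hκ hκ1
  obtain ⟨t₀, hP⟩ := hPH F
  have hr : ∀ l, μ ≤ (F.f l).r := by
    rintro (x | x)
    · exact hI x.1
    · exact hJ x.1
  have hμ0 : 0 < μ := hd.trans hdμ
  obtain ⟨κ', hκ'⟩ : ∃ κ' : ℝ, κ' = (κ + (1 / 2 + F.d / (2 * μ))) / 2 := ⟨_, rfl⟩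
  have hκ'1 : 1 / 2 + F.d / (2 * μ) < κ' := by linarith
  have hκ'2 : κ' < κ := by linarith
  have hκ0 : 0 < κ' := by
    have : 0 < F.d / (2 * μ) := by positivity
    linarith
  obtain ⟨β₁, hβ₁, hCO⟩ := hCO F.Ix F.f F.Y F.d t₀ μ κ' hd hdμ hr hP hκ'1 (by linarith)
  obtain ⟨β₂, hβ₂, hCL⟩ := hCL F
  obtain ⟨C, T₁, hCL⟩ := hCL (max β₁ β₂) (le_max_right _ _)
  obtain ⟨A, T₂, hA, hCO⟩ := hCO (max β₁ β₂) (le_max_left _ _) C
  -- large T
  have hlog := Real.tendsto_log_atTop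
  have hpow : ∀ᶠ T : ℝ in atTop, 2 * T ^ κ' ≤ T ^ κ := by
    have h1 : Tendsto (fun T : ℝ => T ^ (κ - κ')) atTop atTop :=
      tendsto_rpow_atTop (by linarith)
    filter_upwards [h1.eventually_ge_atTop 2, eventually_gt_atTop (0 : ℝ)] with T hT hT0
    calc 2 * T ^ κ' ≤ T ^ (κ - κ') * T ^ κ' := by
          have := Real.rpow_nonneg hT0.le κ'
          gcongr
      _ = T ^ κ := by rw [← Real.rpow_add hT0]; congr 1; ring
  obtain ⟨T₀, hT₀⟩ := eventually_atTop.1 ((hlog.eventually_ge_atTop 12).and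
    ((isLittleO_log_rpow (κ := κ) (by linarith) 8).and
      (hpow.and ((eventually_ge_atTop T₁).and ((eventually_ge_atTop T₂).and
      (eventually_ge_atTop (9 : ℝ)))))))
  refine ⟨A + 2, T₀, by linarith, fun T W hT hW hWT => ?_⟩
  obtain ⟨hl12, hsm, hpw, hT1, hT2, hT9⟩ := hT₀ T hT
  have hT0 : 0 < T := by linarith
  obtain ⟨ℓ, hℓ⟩ : ∃ ℓ : ℝ, ℓ = Real.log T := ⟨_, rfl⟩
  rw [← hℓ] at hl12 hsm
  have hℓ0 : 0 < ℓ := by linarith
  have hW8 : 8 * ℓ ≤ W := hsm.trans hW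
  have hW0 : 0 < W := by linarith
  obtain ⟨a, ha⟩ : ∃ a : ℝ, a = T + 2 * ℓ := ⟨_, rfl⟩
  obtain ⟨W', hW'⟩ : ∃ W' : ℝ, W' = W - 4 * ℓ := ⟨_, rfl⟩
  have hW'2 : W / 2 ≤ W' := by linarith
  have haT : T ≤ a := by linarith
  have haW : a + W' ≤ 2 * T := by linarith
  have hW'κ : T ^ κ' ≤ W' := by linarith
  have hsubI : Icc a (a + W') ⊆ Icc T (2 * T) := Icc_subset_Icc haT haW
  obtain ⟨Ex, hEx⟩ : ∃ Ex : Set ℂ, Ex = {z | F.Exc z ∧ ∃ v ∈ Icc a (a + W'),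
    |z.im - v| ≤ 2 * ℓ} := ⟨_, rfl⟩
  have hExim : ∀ z ∈ Ex, T ≤ z.im ∧ z.im ≤ T + W ∧ F.Exc z := by
    intro z hz
    rw [hEx] at hz
    obtain ⟨h1, v, hv, h2⟩ := hz
    have h3 := abs_le.1 h2
    have h4 := hv.1
    have h5 := hv.2
    refine ⟨?_, ?_, h1⟩ <;> linarith
  by_cases hfin : Ex.Finite
  · refine ⟨hfin.toFinset, ?_, fun z hz => hExim z (hfin.mem_toFinset.1 hz)⟩
    obtain ⟨G, hG⟩ : ∃ G : Set ℝ, G = Icc a (a + W') \
        ⋃ z ∈ Ex, Icc (z.im - 2 * ℓ) (z.im + 2 * ℓ) := ⟨_, rfl⟩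
    have hUm : MeasurableSet (⋃ z ∈ Ex, Icc (z.im - 2 * ℓ) (z.im + 2 * ℓ)) :=
      hfin.measurableSet_biUnion fun z _ => measurableSet_Icc
    have hGm : MeasurableSet G := by rw [hG]; exact measurableSet_Icc.diff hUm
    have hGs : G ⊆ Icc a (a + W') := by rw [hG]; exact sdiff_subset
    have hclean : ∀ u ∈ G, Clean F.f F.Y (max β₁ β₂) C T u := by
      intro u hu
      refine hCL T hT1 u (hsubI (hGs hu)) fun z hz hzu => ?_
      rw [hG] at hu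
      refine hu.2 ?_
      rw [mem_iUnion₂]
      refine ⟨z, ?_, ?_⟩
      · rw [hEx]
        refine ⟨hz, u, hu.1, ?_⟩
        rw [hℓ]
        exact hzu
      · rw [← hℓ] at hzu
        have := abs_le.1 hzu
        constructor <;> linarith
    have h1 := hCO T hT2 a W' haT haW hW'κ G hGm hGs hclean
    have h2 : volume.real (Icc a (a + W') \ G) ≤ hfin.toFinset.card * (4 * ℓ) := by
      have h3 : Icc a (a + W') \ G ⊆ ⋃ z ∈ hfin.toFinset, Icc (z.im - 2 * ℓ) (z.im + 2 * ℓ) := by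
        intro u hu
        rw [hG] at hu
        by_contra hcon
        refine hu.2 ⟨hu.1, fun h4 => hcon ?_⟩
        rw [mem_iUnion₂] at h4 ⊢
        obtain ⟨z, hz, h5⟩ := h4
        exact ⟨z, hfin.mem_toFinset.2 hz, h5⟩
      have h4 : volume (⋃ z ∈ hfin.toFinset, Icc (z.im - 2 * ℓ) (z.im + 2 * ℓ)) ≤
          ∑ z ∈ hfin.toFinset, volume (Icc (z.im - 2 * ℓ) (z.im + 2 * ℓ)) :=
        measure_biUnion_finset_le _ _
      have h5 : ∑ z ∈ hfin.toFinset, volume (Icc (z.im - 2 * ℓ) (z.im + 2 * ℓ)) =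
          ENNReal.ofReal (hfin.toFinset.card * (4 * ℓ)) := by
        have h6 : ∀ z ∈ hfin.toFinset, volume (Icc (z.im - 2 * ℓ) (z.im + 2 * ℓ)) =
            ENNReal.ofReal (4 * ℓ) := by
          intro z _
          rw [Real.volume_Icc]
          congr 1
          ring
        rw [Finset.sum_congr rfl h6, Finset.sum_const, nsmul_eq_mul,
          ENNReal.ofReal_mul (Nat.cast_nonneg _), ENNReal.ofReal_natCast]
      have h6 := (measure_mono h3).trans (h4.trans h5.le)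
      exact ENNReal.toReal_le_of_le_ofReal (by positivity) h6
    rw [← hℓ] at h1 ⊢
    have hpA : 0 < ℓ ^ A := Real.rpow_pos_of_pos hℓ0 _
    have h7 : W / ℓ ^ (A + 2) ≤ W' / ℓ ^ A / (4 * ℓ) := by
      have h8 : ℓ ^ (A + 2) = ℓ ^ A * ℓ ^ (2 : ℕ) := by
        rw [Real.rpow_add hℓ0]
        norm_cast
      rw [h8, div_div, div_le_div_iff₀ (by positivity) (by positivity)]
      have h9 : ℓ ^ A * (4 * ℓ) * 2 ≤ ℓ ^ A * ℓ ^ 2 := by
        have h10 : 8 * ℓ ≤ ℓ ^ 2 := by nlinarith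
        calc ℓ ^ A * (4 * ℓ) * 2 = ℓ ^ A * (8 * ℓ) := by ring
          _ ≤ ℓ ^ A * ℓ ^ 2 := by gcongr
      calc W * (ℓ ^ A * (4 * ℓ)) = (W / 2) * (ℓ ^ A * (4 * ℓ) * 2) := by ring
        _ ≤ W' * (ℓ ^ A * ℓ ^ 2) := by
            have hW'0 : 0 ≤ W' := by linarith
            gcongr
    refine h7.trans ?_
    rw [div_le_iff₀ (by positivity)]
    exact h1.trans h2
  · obtain ⟨Z, hZs, hZc⟩ := Set.Infinite.exists_subset_card_eq hfin ⌈W / Real.log T ^ (A + 2)⌉₊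
    refine ⟨Z, ?_, fun z hz => hExim z (hZs hz)⟩
    rw [hZc]
    exact Nat.le_ceil _

end Pool.Agent.H25.DL
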