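import Pool.Agent.H25.DL.Targets3
import Pool.Agent.H92.DL.FU

set_option autoImplicit false

open Complex MeasureTheory Set Pool.Agent.H92.DL

namespace Pool.Agent.H25.DL

/-- (FU2); the proof is that of helper92 for `T_FU` -/
theorem fu2 (hVD : T_VD) : T_FU2 := by
  intro ι _ f Y d t₀ β hd hβ hY
  classical
  obtain ⟨κ, B, η, C, hκ, hC⟩ := hY.main
  have ht0 := hY.one_le
  -- constants
  have hC0 : 0 ≤ |C| := abs_nonneg _
  refine ⟨8 * Real.sqrt (6 / d) + 5 * |C| + 1, max (max (2 * t₀) 16) (24 * |η| / d), by positivity,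
    fun T hT j a b haT hab hbT => ?_⟩
  have hT1 : 2 * t₀ ≤ T := (le_max_left _ _).trans ((le_max_left _ _).trans hT)
  have hT2 : 16 ≤ T := (le_max_right _ _).trans ((le_max_left _ _).trans hT)
  have hT3 : 24 * |η| / d ≤ T := (le_max_right _ _).trans hT
  have hTpos : 0 < T := by linarith
  have hlogT : Real.log T ≤ T / 2 := by
    have h1 : Real.log T = 2 * Real.log (Real.sqrt T) := by
      rw [Real.log_sqrt hTpos.le]; ring
    have h2 := Real.log_le_sub_one_of_pos (Real.sqrt_pos.2 hTpos)
    have h3 : Real.sqrt T * Real.sqrt T = T := Real.mul_self_sqrt hTpos.le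
    have h4 : 4 ≤ Real.sqrt T := by
      rw [show (4 : ℝ) = Real.sqrt 16 by
        rw [show (16 : ℝ) = 4 ^ 2 by norm_num, Real.sqrt_sq (by norm_num)]]
      exact Real.sqrt_le_sqrt hT2
    rw [h1]
    nlinarith
  have hlog0 : 0 ≤ Real.log T := Real.log_nonneg (by linarith)
  set F : ℝ → ℂ := fun t => Pj f j (1 / 2 + t * I) * Y (1 / 2 + t * I) with hF
  -- the phase
  have hYc : ContinuousOn (fun t : ℝ => Y (1 / 2 + t * I)) (Icc (T / 2) (3 * T)) := by
    intro t ht
    have h1 : ContinuousAt Y (1 / 2 + t * I) := by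
      refine (hY.diff _ ?_).continuousAt
      simp
      linarith [ht.1]
    have h2 : ContinuousAt (fun t : ℝ => (1 / 2 + t * I : ℂ)) t := by fun_prop
    exact (ContinuousAt.comp (f := fun t : ℝ => (1 / 2 + t * I : ℂ)) h1 h2).continuousWithinAt
  have hexp : ∀ Λ : ℝ, Continuous (fun t : ℝ => cexp (((-(t * Λ)) : ℝ) * I)) := by
    intro Λ; fun_prop
  have hone : ∀ Λ x y : ℝ, T / 2 ≤ x → x ≤ y → y ≤ 3 * T →
      ‖∫ t in x..y, cexp (((-(t * Λ)) : ℝ) * I) * Y (1 / 2 + t * I)‖ ≤
        (8 * Real.sqrt (6 / d) + 5 * |C|) * Real.sqrt T := by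
    intro Λ x y hx hxy hy
    have hsub : Icc x y ⊆ Icc (T / 2) (3 * T) := Icc_subset_Icc hx hy
    set φ : ℝ → ℝ := fun t => d * t * Real.log t + B * t + η * Real.log t - t * Λ with hφ
    set φ' : ℝ → ℝ := fun t => d * (Real.log t + 1) + B + η / t - Λ with hφ'
    set φ'' : ℝ → ℝ := fun t => d / t - η / t ^ 2 with hφ''
    have hpos : ∀ t ∈ Icc x y, 0 < t := fun t ht => by linarith [ht.1]
    have hd1 : ∀ t ∈ Icc x y, HasDerivAt φ (φ' t) t := by
      intro t ht
      have ht' := (hpos t ht).ne'
      have a1 := Real.hasDerivAt_log ht'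
      have a2 : HasDerivAt (fun t : ℝ => t) 1 t := hasDerivAt_id t
      have a3 := ((((a2.const_mul d).mul a1).add (a2.const_mul B)).add (a1.const_mul η)).sub
        (a2.mul_const Λ)
      refine a3.congr_deriv ?_
      rw [hφ']
      field_simp
    have hd2 : ∀ t ∈ Icc x y, HasDerivAt φ' (φ'' t) t := by
      intro t ht
      have ht' := (hpos t ht).ne'
      have a1 := Real.hasDerivAt_log ht'
      have a4 : HasDerivAt (fun t : ℝ => η / t) (-(η / t ^ 2)) t := by
        have := (hasDerivAt_inv ht').const_mul η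
        refine this.congr_deriv ?_
        ring
      have a3 := ((((a1.add_const 1).const_mul d).add_const B).add a4).sub_const Λ
      refine a3.congr_deriv ?_
      rw [hφ'']
      ring
    have hc2 : ContinuousOn φ'' (Icc x y) := by
      refine ContinuousOn.sub ?_ ?_
      · exact continuousOn_const.div continuousOn_id fun t ht => (hpos t ht).ne'
      · exact continuousOn_const.div (continuousOn_id.pow 2) fun t ht =>
          pow_ne_zero _ (hpos t ht).ne'
    have hlam : 0 < d / (6 * T) := by positivity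
    have hge : ∀ t ∈ Icc x y, d / (6 * T) ≤ φ'' t := by
      intro t ht
      have ht' := hpos t ht
      have htT : T / 2 ≤ t := hx.trans ht.1
      have htT3 : t ≤ 3 * T := ht.2.trans hy
      have e1 : 24 * |η| ≤ T * d := by
        rwa [div_le_iff₀ hd] at hT3
      have e2 : η / t ^ 2 ≤ |η| / t ^ 2 := by
        gcongr
        exact le_abs_self η
      have e3 : |η| / t ^ 2 ≤ d / (12 * t) := by
        rw [div_le_div_iff₀ (by positivity) (by positivity)]
        have : 12 * |η| ≤ d * t := by nlinarith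
        nlinarith
      have e4 : d / t - d / (12 * t) = (11 / 12) * (d / t) := by
        field_simp; ring
      have e5 : d / (3 * T) ≤ d / t := by
        gcongr
      have e6 : d / (6 * T) = (1 / 2) * (d / (3 * T)) := by
        field_simp; ring
      have e7 : 0 < d / (3 * T) := by positivity
      rw [hφ'']
      simp only
      rw [e6]
      linarith
    have hvd := hVD x y (d / (6 * T)) φ φ' φ'' hxy hlam hd1 hd2 hc2 hge
    have hs : 8 / Real.sqrt (d / (6 * T)) = 8 * Real.sqrt (6 / d) * Real.sqrt T := by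
      rw [mul_assoc, ← Real.sqrt_mul (by positivity), div_eq_mul_inv, ← Real.sqrt_inv]
      congr 2
      field_simp
    rw [hs] at hvd
    have hcφ : ContinuousOn φ (Icc x y) := fun t ht => (hd1 t ht).continuousAt.continuousWithinAt
    have hcE : ContinuousOn (fun t => cexp ((φ t : ℝ) * I)) (Icc x y) := by
      refine Complex.continuous_exp.comp_continuousOn ?_
      exact (Complex.continuous_ofReal.comp_continuousOn hcφ).mul continuousOn_const
    have hcL : ContinuousOn (fun t : ℝ => cexp (((-(t * Λ)) : ℝ) * I) * Y (1 / 2 + t * I)) (Icc x y) :=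
      (hexp Λ).continuousOn.mul (hYc.mono hsub)
    have hiL : IntervalIntegrable (fun t : ℝ => cexp (((-(t * Λ)) : ℝ) * I) * Y (1 / 2 + t * I))
        volume x y := by
      apply ContinuousOn.intervalIntegrable; rwa [uIcc_of_le hxy]
    have hiK : IntervalIntegrable (fun t => κ * cexp ((φ t : ℝ) * I)) volume x y := by
      apply ContinuousOn.intervalIntegrable; rw [uIcc_of_le hxy]
      exact continuousOn_const.mul hcE
    have hsplit : ∫ t in x..y, cexp (((-(t * Λ)) : ℝ) * I) * Y (1 / 2 + t * I) =
        (∫ t in x..y, (cexp (((-(t * Λ)) : ℝ) * I) * Y (1 / 2 + t * I) -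
          κ * cexp ((φ t : ℝ) * I))) + κ * ∫ t in x..y, cexp ((φ t : ℝ) * I) := by
      rw [intervalIntegral.integral_sub hiL hiK, intervalIntegral.integral_const_mul]
      ring
    have herr : ‖∫ t in x..y, (cexp (((-(t * Λ)) : ℝ) * I) * Y (1 / 2 + t * I) -
          κ * cexp ((φ t : ℝ) * I))‖ ≤ 5 * |C| := by
      have h1 := intervalIntegral.norm_integral_le_of_norm_le_const (a := x) (b := y)
        (C := |C| / (T / 2))
        (f := fun t => cexp (((-(t * Λ)) : ℝ) * I) * Y (1 / 2 + t * I) - κ * cexp ((φ t : ℝ) * I))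
        (fun t ht => by
          rw [uIoc_of_le hxy] at ht
          have htt : T / 2 ≤ t := hx.trans ht.1.le
          have ht1 : t₀ ≤ t := by linarith
          have htp : 0 < t := by linarith
          have e1 : cexp (((-(t * Λ)) : ℝ) * I) * Y (1 / 2 + t * I) - κ * cexp ((φ t : ℝ) * I) =
              cexp (((-(t * Λ)) : ℝ) * I) * (Y (1 / 2 + t * I) -
                κ * cexp ((d * t * Real.log t + B * t + η * Real.log t : ℝ) * I)) := by
            rw [mul_sub]
            congr 1
            have e2 : cexp ((φ t : ℝ) * I) = cexp (((-(t * Λ)) : ℝ) * I) *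
                cexp ((d * t * Real.log t + B * t + η * Real.log t : ℝ) * I) := by
              rw [← Complex.exp_add]
              congr 1
              rw [hφ]
              push_cast
              ring
            rw [e2]; ring
          rw [e1, norm_mul, Complex.norm_exp_ofReal_mul_I, one_mul]
          refine (hC t ht1).trans ?_
          calc C / t ≤ |C| / t := by gcongr; exact le_abs_self C
            _ ≤ |C| / (T / 2) := by gcongr)
      refine h1.trans ?_
      rw [abs_of_nonneg (show 0 ≤ y - x by linarith), div_mul_eq_mul_div,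
        div_le_iff₀ (by positivity)]
      have : y - x ≤ 5 / 2 * T := by linarith
      nlinarith
    rw [hsplit]
    refine (norm_add_le _ _).trans ?_
    rw [norm_mul, hκ, one_mul]
    have h1 : 1 ≤ Real.sqrt T := by
      rw [show (1 : ℝ) = Real.sqrt 1 by rw [Real.sqrt_one]]
      exact Real.sqrt_le_sqrt (by linarith)
    nlinarith
  set W : ℝ := (8 * Real.sqrt (6 / d) + 5 * |C|) * Real.sqrt T with hW
  have hW0 : 0 ≤ W := by positivity
  set Q : ℝ := ∏ l, (2 : ℝ) ^ ((j l : ℝ) / 2) with hQ
  have hQ0 : 0 < Q := Finset.prod_pos fun l _ => Real.rpow_pos_of_pos two_pos _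
  have hFc : ContinuousOn F (Icc (T / 2) (3 * T)) := by
    refine ContinuousOn.mul ?_ hYc
    refine Continuous.continuousOn ?_
    simp_rw [Pj_eq]
    fun_prop
  have hM : ∀ x y, T / 2 ≤ x → x ≤ y → y ≤ 3 * T → ‖∫ t in x..y, F t‖ ≤ Q * W := by
    intro x y hx hxy hy
    have hsub : Icc x y ⊆ Icc (T / 2) (3 * T) := Icc_subset_Icc hx hy
    have e1 : ∫ t in x..y, F t =
        ∑ z ∈ Fintype.piFinset (fun l => Finset.Ico (2 ^ (j l)) (2 ^ (j l + 1))),
          (∏ l, (f l).c (z l) * ((z l : ℕ) : ℂ) ^ (-(1 / 2 + (f l).τ * I : ℂ))) *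
          ∫ t in x..y, cexp (((-(t * ∑ l, (f l).r * Real.log (z l))) : ℝ) * I) *
            Y (1 / 2 + t * I) := by
      rw [hF]
      simp_rw [Pj_eq, Finset.sum_mul, mul_assoc]
      rw [intervalIntegral.integral_finsetSum]
      · refine Finset.sum_congr rfl fun z _ => ?_
        rw [intervalIntegral.integral_const_mul]
      · intro z _
        apply ContinuousOn.intervalIntegrable
        rw [uIcc_of_le hxy]
        refine continuousOn_const.mul ?_
        exact (hexp _).continuousOn.mul (hYc.mono hsub)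
    rw [e1]
    refine (norm_sum_le _ _).trans ?_
    calc _ ≤ ∑ z ∈ Fintype.piFinset (fun l => Finset.Ico (2 ^ (j l)) (2 ^ (j l + 1))),
          ‖∏ l, (f l).c (z l) * ((z l : ℕ) : ℂ) ^ (-(1 / 2 + (f l).τ * I : ℂ))‖ * W := by
          refine Finset.sum_le_sum fun z _ => ?_
          rw [norm_mul]
          exact mul_le_mul_of_nonneg_left (hone _ x y hx hxy hy) (norm_nonneg _)
      _ ≤ Q * W := by
          rw [← Finset.sum_mul]
          exact mul_le_mul_of_nonneg_right (coef_sum f j) hW0
  have hgc : Continuous (fun y : ℝ => gs β (y * I)) := by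
    unfold gs
    fun_prop
  have hfin := swap_bound F (fun y => gs β (y * I)) (T / 2) (3 * T) a b (Real.log T) (Q * W)
    (by linarith) hlog0 hab (by linarith) hFc hgc hM (gs_int β _ hβ hlog0)
    (by positivity)
  have hKJ : ∀ u : ℝ, KJ f Y β (Real.log T) j u =
      ∫ y in (-Real.log T)..(Real.log T), F (u + y) * gs β (y * I) := by
    intro u
    unfold KJ
    rw [hF]
  simp_rw [hKJ]
  refine hfin.trans ?_
  rw [hW]
  have : 0 ≤ Real.sqrt T := Real.sqrt_nonneg _
  nlinarith [mul_nonneg this hQ0.le]

end Pool.Agent.H25.DL
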