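import Pool.Agent.H25.DL.RE2
import Pool.Agent.H25.DL.AR2
import Pool.Agent.H25.DL.FI2
import Pool.Agent.H25.DL.CO2
import Pool.Agent.H25.DL.FU2
import Pool.Agent.H25.DL.BA2
import Pool.Agent.H25.DL.CL
import Pool.Agent.H11.DL.EX
import Pool.Agent.H11.DL.LE
import Pool.Agent.H11.DL.SH
import Pool.Agent.H11.DL.TR
import Pool.Agent.H92.DL.VD
import Pool.Agent.H92.DL.CN
import Pool.Agent.H92.DL.YN
import Pool.Agent.H19.DL.MO
import Pool.Agent.H19.DL.YA
import Pool.Agent.H89.DL.PH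
import Pool.Agent.H89.DL.YB
import Pool.Agent.H62.DL.DG
import Pool.Agent.H62.DL.EU
import Pool.Agent.H62.DL.FQ
import Pool.Agent.H48.DL.AF
import Pool.Agent.H48.DL.AH
import Pool.Agent.H48.DL.AL
import Pool.Agent.H48.DL.DI

/-!
# Dilated zeros of `L`-functions: assembly
-/

set_option autoImplicit false

namespace Pool.Agent.H25.DL

theorem T_PH_proved : T_PH :=
  Pool.Agent.H89.DL.phase Pool.Agent.H19.DL.ya Pool.Agent.H89.DL.yb Pool.Agent.H92.DL.yn

theorem T_CL_proved : T_CL :=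
  cl Pool.Agent.H62.DL.eu Pool.Agent.H62.DL.lb (Pool.Agent.H62.DL.fq Pool.Agent.H92.DL.yn)
    Pool.Agent.H62.DL.dg T_PH_proved

theorem T_FI2_proved : T_FI2 :=
  fi2 (co2 (fu2 Pool.Agent.H92.DL.vd) (ba2 Pool.Agent.H19.DL.mo) Pool.Agent.H11.DL.le
    (Pool.Agent.H11.DL.ex Pool.Agent.H11.DL.tr) Pool.Agent.H11.DL.sh Pool.Agent.H92.DL.cn)
    T_PH_proved T_CL_proved

/-- the theorem for Dirichlet `L`-functions -/
theorem dirichlet_main : T_RE2 := re2 T_FI2_proved Pool.Agent.H48.DL.di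

/-- the theorem for Artin `L`-functions -/
theorem artin_main : T_AR2 :=
  ar2 T_FI2_proved (Pool.Agent.H48.DL.af Pool.Agent.H48.DL.al Pool.Agent.H48.DL.ah)

end Pool.Agent.H25.DL
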