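import Pool.Agent.H25.DL.Defs

/-!
# Dilated zeros of `L`-functions: exact targets
-/

set_option autoImplicit false

open Complex MeasureTheory Set

namespace Pool.Agent.H25.DL

/-! ### Part A: the analytic core -/

/-- (VD) van der Corput's second derivative test. -/
def T_VD : Prop :=
  ∀ (a b lam : ℝ) (φ φ' φ'' : ℝ → ℝ), a ≤ b → 0 < lam →
    (∀ x ∈ Icc a b, HasDerivAt φ (φ' x) x) → (∀ x ∈ Icc a b, HasDerivAt φ' (φ'' x) x) →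
    ContinuousOn φ'' (Icc a b) → (∀ x ∈ Icc a b, lam ≤ φ'' x) →
    ‖∫ x in a..b, cexp ((φ x : ℝ) * I)‖ ≤ 8 / Real.sqrt lam

/-- (FU) the average over the full window. -/
def T_FU : Prop :=
  ∀ (ι : Type) [Fintype ι] (f : ι → Fac) (Y : ℂ → ℂ) (d t₀ β : ℝ), 0 < d → 0 < β →
    Phase Y d t₀ → ∃ C T₀ : ℝ, 0 < C ∧ ∀ T : ℝ, T₀ ≤ T → ∀ j : ι → ℕ,
      ‖∫ u in T..(2 * T), KJ f Y β (Real.log T) j u‖ ≤ C * Real.sqrt T * ∏ l, (2 : ℝ) ^ ((j l : ℝ) / 2)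

/-- (MO) high moments of a dyadic block. -/
def T_MO : Prop :=
  ∀ (k : ℕ) (r : ℝ), 1 ≤ k → 0 < r → ∃ C : ℝ, 0 < C ∧ ∀ (f : Fac) (T : ℝ) (j : ℕ), f.r = r →
    3 ≤ T → ((2 : ℝ) ^ j) ^ k ≤ T →
    ∫ t in (0 : ℝ)..(4 * T), ‖f.B j (1 / 2 + t * I)‖ ^ (2 * k) ≤ C * T * Real.log T ^ C

/-- (BA) the average over the bad heights. -/
def T_BA : Prop :=
  ∀ (ι : Type) [Fintype ι] (f : ι → Fac) (Y : ℂ → ℂ) (d t₀ β μ D : ℝ), 0 < β → Phase Y d t₀ →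
    0 < D → D < μ → (∀ l, μ ≤ (f l).r) →
    ∃ δ C T₀ : ℝ, 0 < δ ∧ δ ≤ 1 ∧ 0 < C ∧ ∀ T : ℝ, T₀ ≤ T → ∀ j ∈ mains f μ D T,
      ∀ E : Set ℝ, MeasurableSet E → E ⊆ Icc T (2 * T) →
      ∫ u in E, ‖KJ f Y β (Real.log T) j u‖ ≤
        C * Real.log T ^ C * (volume.real E) ^ δ * T ^ (1 - δ)

/-- (LE) the left side. -/
def T_LE : Prop :=
  ∀ (ι : Type) [Fintype ι] (f : ι → Fac), ∃ β₁ : ℝ, 0 < β₁ ∧ ∀ β : ℝ, β₁ ≤ β →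
    ∃ R₀ : ℝ, ∀ R : ℝ, R₀ ≤ R → ∀ u : ℝ, ‖LL f β R u - 1‖ ≤ 1 / 2

/-- (TR) truncation and decomposition into blocks on the line `Re s = 1/2 + β`. -/
def T_TR : Prop :=
  ∀ (ι : Type) [Fintype ι] (f : ι → Fac) (μ d D : ℝ), 0 < d → d < D → 0 < μ →
    (∀ l, μ ≤ (f l).r) → ∃ β₁ : ℝ, 0 < β₁ ∧ ∀ β : ℝ, β₁ ≤ β →
    ∃ T₀ : ℝ, ∀ T : ℝ, T₀ ≤ T → ∀ t : ℝ,
      ‖Pr f (1 / 2 + β + t * I) - ∑ j ∈ mains f μ D T, Pj f j (1 / 2 + β + t * I)‖ ≤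
        T ^ (-(d * β) - 1)

/-- (EX) the local average as a sum over the main blocks. -/
def T_EX : Prop :=
  ∀ (ι : Type) [Fintype ι] (f : ι → Fac) (Y : ℂ → ℂ) (d t₀ μ D : ℝ), 0 < d → d < D → 0 < μ →
    (∀ l, μ ≤ (f l).r) → Phase Y d t₀ → ∃ β₁ : ℝ, 0 < β₁ ∧ ∀ β : ℝ, β₁ ≤ β →
    ∃ T₀ : ℝ, ∀ T : ℝ, T₀ ≤ T → ∀ u ∈ Icc T (2 * T),
      ‖KK f Y β (Real.log T) u - ∑ j ∈ mains f μ D T, KJ f Y β (Real.log T) j u‖ ≤ 1 / 8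

/-- (SH) the contour shift at a clean height. -/
def T_SH : Prop :=
  ∀ (ι : Type) [Fintype ι] (f : ι → Fac) (Y : ℂ → ℂ) (β C : ℝ), 0 < β →
    ∃ T₀ : ℝ, ∀ T : ℝ, T₀ ≤ T → ∀ u ∈ Icc T (2 * T), Clean f Y β C T u →
      ‖KK f Y β (Real.log T) u - LL f β (Real.log T) u‖ ≤ 1 / 8

/-- (CN) number of main blocks and size of their product. -/
def T_CN : Prop :=
  ∀ (ι : Type) [Fintype ι] (f : ι → Fac) (μ D : ℝ), 0 < D → 0 < μ → (∀ l, μ ≤ (f l).r) →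
    ∃ C : ℝ, 0 < C ∧ ∀ T : ℝ, 3 ≤ T → ((mains f μ D T).card : ℝ) ≤ C * Real.log T ^ C ∧
      ∀ j ∈ mains f μ D T, ∏ l, (2 : ℝ) ^ ((j l : ℝ) / 2) ≤ T ^ (D / (2 * μ))

/-- (CO) the core: many bad heights. -/
def T_CO : Prop :=
  ∀ (ι : Type) [Fintype ι] (f : ι → Fac) (Y : ℂ → ℂ) (d t₀ μ : ℝ), 0 < d → d < μ →
    (∀ l, μ ≤ (f l).r) → Phase Y d t₀ → ∃ β₁ : ℝ, 0 < β₁ ∧ ∀ β : ℝ, β₁ ≤ β → ∀ C : ℝ,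
    ∃ A T₀ : ℝ, 0 < A ∧ ∀ T : ℝ, T₀ ≤ T → ∀ G : Set ℝ, MeasurableSet G → G ⊆ Icc T (2 * T) →
      (∀ u ∈ G, Clean f Y β C T u) → T / Real.log T ^ A ≤ volume.real (Icc T (2 * T) \ G)

/-! ### Part B: the `L`-function side -/

/-- (YA) the inverse factor on the critical line. -/
def T_YA : Prop :=
  ∀ κ : ℝ, (κ = 0 ∨ κ = 1) → ∀ r τ : ℝ, 0 < r → ∃ (ω : ℂ) (B C t₁ : ℝ), ‖ω‖ = 1 ∧ 1 ≤ t₁ ∧
    ∀ t : ℝ, t₁ ≤ t →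
    ‖Gammaℂ (1 / 2 + (r * t + τ : ℝ) * I) *
        Complex.cos (Real.pi * ((1 / 2 + (r * t + τ : ℝ) * I) - κ) / 2) -
      ω * cexp ((r * t * Real.log t + B * t + τ * Real.log t : ℝ) * I)‖ ≤ C / t

/-- (YB) the size of the inverse factor to the right of the critical line. -/
def T_YB : Prop :=
  ∀ b : ℝ, ∃ C : ℝ, 0 < C ∧ ∀ κ : ℝ, (κ = 0 ∨ κ = 1) → ∀ x y : ℝ, 1 / 2 ≤ x → x ≤ b → 1 ≤ y →
    C⁻¹ * y ^ (x - 1 / 2) ≤ ‖Gammaℂ (x + y * I) * Complex.cos (Real.pi * ((x + y * I) - κ) / 2)‖ ∧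
    ‖Gammaℂ (x + y * I) * Complex.cos (Real.pi * ((x + y * I) - κ) / 2)‖ ≤ C * y ^ (x - 1 / 2)

/-- (YN) the inverse factor is holomorphic without zeros in the upper half plane. -/
def T_YN : Prop :=
  ∀ L : LF, ∀ s : ℂ, 0 < s.im → DifferentiableAt ℂ L.y s ∧ L.y s ≠ 0

/-- (PH) the phase of the quotient. -/
def T_PH : Prop := ∀ F : Fam, ∃ t₀ : ℝ, Phase F.Y F.d t₀

/-- (EU) the quotient as a product of Dirichlet series. -/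
def T_EU : Prop :=
  ∀ F : Fam, ∃ β₁ t₀ : ℝ, 0 < β₁ ∧ ∀ β : ℝ, β₁ ≤ β → ∀ t : ℝ, t₀ ≤ t →
    F.M (1 / 2 + β + t * I) ≠ 0 ∧
    F.N (1 / 2 + β + t * I) = F.M (1 / 2 + β + t * I) * Pr F.f (1 / 2 + β + t * I)

/-- (LB) lower bound for the denominator far to the right. -/
def T_LB : Prop :=
  ∀ F : Fam, ∃ b₀ c t₀ : ℝ, 0 < c ∧ ∀ b : ℝ, b₀ ≤ b → ∀ t : ℝ, t₀ ≤ t →
    c ≤ ‖F.M (b + t * I)‖

/-- (FQ) the functional equation of the quotient. -/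
def T_FQ : Prop :=
  ∀ F : Fam, ∃ t₀ : ℝ, ∀ s : ℂ, t₀ ≤ s.im →
    F.N s * F.Y s * (starRingEnd ℂ) (F.M (1 - (starRingEnd ℂ) s)) =
      (starRingEnd ℂ) (F.N (1 - (starRingEnd ℂ) s)) * F.M s

/-- (DG) holomorphy and growth of numerator and denominator. -/
def T_DG : Prop :=
  ∀ F : Fam, ∃ t₀ : ℝ, 1 ≤ t₀ ∧
    (∀ s : ℂ, t₀ ≤ s.im → DifferentiableAt ℂ F.N s ∧ DifferentiableAt ℂ F.M s) ∧
    ∀ b : ℝ, ∃ C : ℝ, 0 < C ∧ ∀ s : ℂ, |s.re| ≤ b → t₀ ≤ s.im →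
      ‖F.N s‖ ≤ C * s.im ^ C ∧ ‖F.M s‖ ≤ C * s.im ^ C

/-- (CL) heights without exceptional points nearby are clean. -/
def T_CL : Prop :=
  ∀ F : Fam, ∃ β₁ : ℝ, 0 < β₁ ∧ ∀ β : ℝ, β₁ ≤ β → ∃ C T₀ : ℝ, ∀ T : ℝ, T₀ ≤ T →
    ∀ u ∈ Icc T (2 * T), (∀ z : ℂ, F.Exc z → |z.im - u| ≤ 2 * Real.log T → False) →
      Clean F.f F.Y β C T u

/-- (FI) the general theorem. -/
def T_FI : Prop :=
  ∀ (F : Fam) (μ : ℝ), 0 < F.d → F.d < μ → (∀ i, μ ≤ (F.p i).r) → (∀ j, μ ≤ (F.q j).r) →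
    ∃ A T₀ : ℝ, 0 < A ∧ ∀ T : ℝ, T₀ ≤ T → ∃ Z : Finset ℂ, T / Real.log T ^ A ≤ Z.card ∧
      ∀ z ∈ Z, T / 4 ≤ z.im ∧ z.im ≤ T ∧ F.Exc z

end Pool.Agent.H25.DL
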