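import Pool.Agent.H25.DL.Targets

/-!
# Dilated zeros: module FI (the general theorem)
-/

set_option autoImplicit false

open Complex MeasureTheory Set Filter Topology

namespace Pool.Agent.H25.DL

/-- (FI) -/
theorem fi (hCO : T_CO) (hPH : T_PH) (hCL : T_CL) : T_FI := by
  intro F μ hd hdμ hI hJ
  obtain ⟨t₀, hP⟩ := hPH F
  have hr : ∀ l, μ ≤ (F.f l).r := by
    rintro (x | x)
    · exact hI x.1
    · exact hJ x.1
  obtain ⟨β₁, hβ₁, hCO⟩ := hCO F.Ix F.f F.Y F.d t₀ μ hd hdμ hr hP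
  obtain ⟨β₂, hβ₂, hCL⟩ := hCL F
  obtain ⟨C, T₁, hCL⟩ := hCL (max β₁ β₂) (le_max_right _ _)
  obtain ⟨A, T₂, hA, hCO⟩ := hCO (max β₁ β₂) (le_max_left _ _) C
  -- large T
  have hlog := Real.tendsto_log_atTop
  have hsmall : ∀ᶠ T : ℝ in atTop, 24 * Real.log T ≤ T := by
    have h1 := (Real.isLittleO_log_id_atTop.const_mul_left 24).bound zero_lt_one
    filter_upwards [h1, eventually_ge_atTop (0 : ℝ)] with T hT hT0
    rw [one_mul, Real.norm_eq_abs, Real.norm_eq_abs, id, abs_of_nonneg hT0] at hT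
    exact (le_abs_self _).trans hT
  obtain ⟨T₀, hT₀⟩ := eventually_atTop.1 ((hlog.eventually_ge_atTop 12).and
    (hsmall.and ((eventually_ge_atTop (3 * T₁)).and ((eventually_ge_atTop (3 * T₂)).and
      (eventually_ge_atTop (9 : ℝ))))))
  refine ⟨A + 2, T₀, by linarith, fun T hT => ?_⟩
  obtain ⟨hl12, hsm, hT1, hT2, hT9⟩ := hT₀ T hT
  have hT0 : 0 < T := by linarith
  obtain ⟨S, hS⟩ : ∃ S : ℝ, S = T / 3 := ⟨_, rfl⟩
  have hS3 : 3 ≤ S := by linarith
  have hS0 : 0 < S := by linarith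
  obtain ⟨ℓ, hℓ⟩ : ∃ ℓ : ℝ, ℓ = Real.log S := ⟨_, rfl⟩
  have hℓT : ℓ ≤ Real.log T := by
    rw [hℓ]
    exact Real.log_le_log hS0 (by linarith)
  have hℓ0 : 0 < ℓ := by
    rw [hℓ]
    exact Real.log_pos (by linarith)
  obtain ⟨Ex, hEx⟩ : ∃ Ex : Set ℂ, Ex = {z | F.Exc z ∧ ∃ v ∈ Icc S (2 * S),
    |z.im - v| ≤ 2 * ℓ} := ⟨_, rfl⟩
  have hExim : ∀ z ∈ Ex, T / 4 ≤ z.im ∧ z.im ≤ T ∧ F.Exc z := by
    intro z hz
    rw [hEx] at hz
    obtain ⟨h1, v, hv, h2⟩ := hz
    have h3 := abs_le.1 h2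
    have h4 := hv.1
    have h5 := hv.2
    refine ⟨?_, ?_, h1⟩ <;> linarith
  by_cases hfin : Ex.Finite
  · refine ⟨hfin.toFinset, ?_, fun z hz => hExim z (hfin.mem_toFinset.1 hz)⟩
    obtain ⟨G, hG⟩ : ∃ G : Set ℝ, G = Icc S (2 * S) \ ⋃ z ∈ Ex, Icc (z.im - 2 * ℓ) (z.im + 2 * ℓ) :=
      ⟨_, rfl⟩
    have hUm : MeasurableSet (⋃ z ∈ Ex, Icc (z.im - 2 * ℓ) (z.im + 2 * ℓ)) :=
      hfin.measurableSet_biUnion fun z _ => measurableSet_Icc
    have hGm : MeasurableSet G := by rw [hG]; exact measurableSet_Icc.diff hUm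
    have hGs : G ⊆ Icc S (2 * S) := by rw [hG]; exact sdiff_subset
    have hclean : ∀ u ∈ G, Clean F.f F.Y (max β₁ β₂) C S u := by
      intro u hu
      refine hCL S (by linarith) u (hGs hu) fun z hz hzu => ?_
      rw [hG] at hu
      refine hu.2 ?_
      rw [mem_iUnion₂]
      refine ⟨z, ?_, ?_⟩
      · rw [hEx]
        refine ⟨hz, u, hu.1, ?_⟩
        rw [hℓ]
        exact hzu
      · rw [← hℓ] at hzu
        have := abs_le.1 hzu
        constructor <;> linarith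
    have h1 := hCO S (by linarith) G hGm hGs hclean
    have h2 : volume.real (Icc S (2 * S) \ G) ≤ hfin.toFinset.card * (4 * ℓ) := by
      have h3 : Icc S (2 * S) \ G ⊆ ⋃ z ∈ hfin.toFinset, Icc (z.im - 2 * ℓ) (z.im + 2 * ℓ) := by
        intro u hu
        rw [hG] at hu
        by_contra hcon
        refine hu.2 ⟨hu.1, fun h4 => hcon ?_⟩
        rw [mem_iUnion₂] at h4 ⊢
        obtain ⟨z, hz, h5⟩ := h4
        exact ⟨z, hfin.mem_toFinset.2 hz, h5⟩
      have h4 : volume (⋃ z ∈ hfin.toFinset, Icc (z.im - 2 * ℓ) (z.im + 2 * ℓ)) ≤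
          ∑ z ∈ hfin.toFinset, volume (Icc (z.im - 2 * ℓ) (z.im + 2 * ℓ)) :=
        measure_biUnion_finset_le _ _
      have h5 : ∑ z ∈ hfin.toFinset, volume (Icc (z.im - 2 * ℓ) (z.im + 2 * ℓ)) =
          ENNReal.ofReal (hfin.toFinset.card * (4 * ℓ)) := by
        have h6 : ∀ z ∈ hfin.toFinset, volume (Icc (z.im - 2 * ℓ) (z.im + 2 * ℓ)) =
            ENNReal.ofReal (4 * ℓ) := by
          intro z _
          rw [Real.volume_Icc]
          congr 1
          ring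
        rw [Finset.sum_congr rfl h6, Finset.sum_const, nsmul_eq_mul,
          ENNReal.ofReal_mul (Nat.cast_nonneg _), ENNReal.ofReal_natCast]
      have h6 := (measure_mono h3).trans (h4.trans h5.le)
      exact ENNReal.toReal_le_of_le_ofReal (by positivity) h6
    have hlogT0 : 0 < Real.log T := by linarith
    have hpS : 0 < Real.log S ^ A := Real.rpow_pos_of_pos (by rw [← hℓ]; exact hℓ0) _
    have hpT : 0 < Real.log T ^ A := Real.rpow_pos_of_pos hlogT0 _
    have h7 : T / Real.log T ^ (A + 2) ≤ S / Real.log S ^ A / (4 * ℓ) := by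
      have h8 : Real.log T ^ (A + 2) = Real.log T ^ A * Real.log T ^ (2 : ℕ) := by
        rw [Real.rpow_add hlogT0]
        norm_cast
      have h9 : Real.log S ^ A ≤ Real.log T ^ A :=
        Real.rpow_le_rpow (by rw [← hℓ]; exact hℓ0.le) (by rw [← hℓ]; exact hℓT) hA.le
      rw [h8, hS, div_div, div_div, div_le_div_iff₀ (by positivity) (by rw [hS] at hpS; positivity)]
      rw [← hS]
      have h10 : 3 * (Real.log S ^ A * (4 * ℓ)) ≤ Real.log T ^ A * Real.log T ^ 2 := by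
        calc 3 * (Real.log S ^ A * (4 * ℓ)) = Real.log S ^ A * (12 * ℓ) := by ring
          _ ≤ Real.log T ^ A * (Real.log T * Real.log T) := by gcongr
          _ = _ := by ring
      calc T * (3 * (Real.log S ^ A * (4 * ℓ))) ≤ T * (Real.log T ^ A * Real.log T ^ 2) := by
            gcongr
        _ = _ := by ring
    refine h7.trans ?_
    rw [div_le_iff₀ (by positivity)]
    exact h1.trans h2
  · obtain ⟨Z, hZs, hZc⟩ := Set.Infinite.exists_subset_card_eq hfin ⌈T / Real.log T ^ (A + 2)⌉₊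
    refine ⟨Z, ?_, fun z hz => hExim z (hZs hz)⟩
    rw [hZc]
    exact Nat.le_ceil _

end Pool.Agent.H25.DL
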